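import Pool.Agent.V11104.GG.Energy

set_option autoImplicit false
set_option linter.unusedSectionVars false
set_option maxHeartbeats 300000

/-!
The rank of approximations of the orbit.
-/

namespace Pool.Agent.V11104.GG

open Finset Module

variable {A : Type*} [Group A] {N : ℕ}
variable {H : Type*} [NormedAddCommGroup H] [InnerProductSpace ℂ H]
variable {κ : (Fin N → A) →* Module.End ℂ H}

variable [Fintype A] [DecidableEq A]

lemma er_le (Φ : Fin N → H) (g : (Fin N → A) × Fin N → H) :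
    ∑ p, er κ (ff κ Φ) (gc g) p ≤ 4 * ∑ p, er κ Φ g p := by
  have h1 : ∑ p, er κ (ff κ Φ) (gc g) p ≤ ∑ p, (2 * er κ Φ g p +
      2 * ((Fintype.card (commutator A) : ℝ)⁻¹ * ∑ c : commutator A, er κ Φ g (p.1 * Pi.mulSingle p.2 (c : A), p.2))) := by
    apply sum_le_sum
    intro p hp
    have := gc_le (κ := κ) Φ g p
    exact this
  refine h1.trans (le_of_eq ?_)
  rw [sum_add_distrib, ← mul_sum, ← mul_sum, sum_er]
  ring

/-- approximations of the orbits inside a subspace -/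
theorem rank_bound (hκ : ∀ b v w, (inner ℂ (κ b v) (κ b w)) = (inner ℂ (v) (w))) (Φ : Fin N → H) {M η : ℝ} (hM0 : 0 < M)
    (hM : ∀ j, ‖ff κ Φ j‖ ^ 2 = M) (hη : 8 * η ≤ M) (W : Submodule ℂ H) [FiniteDimensional ℂ W]
    (g : (Fin N → A) × Fin N → H) (hg : ∀ p, g p ∈ W)
    (herr : ∑ p : (Fin N → A) × Fin N, ‖κ p.1 (Φ p.2) - g p‖ ^ 2 ≤ η * (Fintype.card (Fin N → A) * N)) :
    N ≤ finrank ℂ W := by
  have hg'W : ∀ p, gc g p ∈ W := fun p =>
    W.sub_mem (hg p) (W.smul_mem _ (W.sum_mem fun c _ => hg _))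
  have e5 : ∑ p, er κ (ff κ Φ) (gc g) p ≤ 4 * (η * (Fintype.card (Fin N → A) * N)) :=
    (er_le Φ g).trans (mul_le_mul_of_nonneg_left herr (by norm_num))
  have e6 : ∀ p : (Fin N → A) × Fin N, M - er κ (ff κ Φ) (gc g) p ≤
      ∑ i, ‖(inner ℂ (κ p.1 (ff κ Φ p.2)) (((stdOrthonormalBasis ℂ W i : W) : H)))‖ ^ 2 := by
    intro p
    have h1 := proj_low W (κ p.1 (ff κ Φ p.2)) (gc g p) (hg'W p)
    rwa [nrm hκ, hM] at h1
  have hon : ∀ i, ‖((stdOrthonormalBasis ℂ W i : W) : H)‖ = 1 := fun i =>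
    (stdOrthonormalBasis ℂ W).orthonormal.1 i
  have e7 : ∑ p : (Fin N → A) × Fin N, ∑ i, ‖(inner ℂ (κ p.1 (ff κ Φ p.2)) (((stdOrthonormalBasis ℂ W i : W) : H)))‖ ^ 2 ≤
      finrank ℂ W * (Fintype.card (Fin N → A) * M / 2) := by
    rw [sum_comm]
    calc ∑ i, ∑ p : (Fin N → A) × Fin N, ‖(inner ℂ (κ p.1 (ff κ Φ p.2)) (((stdOrthonormalBasis ℂ W i : W) : H)))‖ ^ 2
        ≤ ∑ i : Fin (finrank ℂ W), (Fintype.card (Fin N → A) * M / 2 : ℝ) := by
          refine sum_le_sum fun i _ => ?_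
          have := energy hκ (ff κ Φ) hM0.le (fun j => (hM j).le) (fun j w hw => ff_perp hκ Φ j w hw)
            ((stdOrthonormalBasis ℂ W i : W) : H)
          rwa [hon i, one_pow, mul_one] at this
      _ = _ := by rw [sum_const, card_univ, Fintype.card_fin, nsmul_eq_mul]
  have e8 : ∑ p : (Fin N → A) × Fin N, (M - er κ (ff κ Φ) (gc g) p) ≤
      finrank ℂ W * (Fintype.card (Fin N → A) * M / 2) := (sum_le_sum fun p _ => e6 p).trans e7
  rw [sum_sub_distrib, sum_const, card_univ, Fintype.card_prod, Fintype.card_fin, nsmul_eq_mul] at e8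
  push_cast at e8
  obtain ⟨K, hK⟩ : ∃ K : ℝ, K = Fintype.card (Fin N → A) := ⟨_, rfl⟩
  have hK0 : 0 < K := by
    have : 0 < Fintype.card (Fin N → A) := Fintype.card_pos
    rw [hK]; exact_mod_cast this
  rw [← hK] at e8 e5
  have hN0 : (0:ℝ) ≤ N := Nat.cast_nonneg N
  have e9 : (N:ℝ) * (K * M / 2) ≤ finrank ℂ W * (K * M / 2) := by
    have h1 : 8 * η * (K * N) ≤ M * (K * N) := mul_le_mul_of_nonneg_right hη (by positivity)
    linarith only [h1, e8, e5]
  have e10 : (N:ℝ) ≤ finrank ℂ W := le_of_mul_le_mul_right e9 (by positivity)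
  exact_mod_cast e10

end Pool.Agent.V11104.GG
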