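import Pool.Agent.V11104.GG.Defs

set_option autoImplicit false
set_option linter.unusedSectionVars false
set_option maxHeartbeats 400000

/-!
The Følner sequence of the lamplighter group.
-/

namespace Pool.Agent.V11104.GG

open MeasureTheory Filter Topology Finset

variable {A : Type*} [Group A]

/-- the configuration given by `b` on `[0, N)` -/
def embF (N : ℕ) (b : Fin N → A) : ℤ → A :=
  fun i => if h : 0 ≤ i ∧ i < N then b ⟨i.toNat, by omega⟩ else 1

/-- the configurations on `[0, N)` -/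
def emb (N : ℕ) : (Fin N → A) →* Lamps A where
  toFun b := ⟨embF N b, (Set.finite_Ico (0:ℤ) N).subset fun i hi => by
    by_contra h
    apply hi
    unfold embF
    rw [dif_neg]
    simpa using h⟩
  map_one' := by
    ext i
    simp only [embF]
    split_ifs <;> rfl
  map_mul' b c := by
    ext i
    simp only [embF, Subgroup.coe_mul, Pi.mul_apply]
    split_ifs <;> simp

lemma emb_apply (N : ℕ) (b : Fin N → A) (i : ℤ) : ((emb N b : Lamps A) : ℤ → A) i = embF N b i := rfl

lemma embF_nat {N : ℕ} (b : Fin N → A) (i : Fin N) : embF N b (i : ℕ) = b i := by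
  unfold embF
  rw [dif_pos ⟨by omega, by exact_mod_cast i.2⟩]
  congr

lemma emb_inj (N : ℕ) : Function.Injective (emb N : (Fin N → A) → Lamps A) := by
  intro b c h
  funext i
  have h1 := congrFun (congrArg Subtype.val h) ((i : ℕ) : ℤ)
  have h2 : embF N b (i : ℕ) = embF N c (i : ℕ) := h1
  rwa [embF_nat, embF_nat] at h2

/-- every configuration supported in `[0, N)` -/
lemma emb_surj {N : ℕ} {l : Lamps A} (h : ∀ i : ℤ, ¬ (0 ≤ i ∧ i < N) → (l : ℤ → A) i = 1) :
    ∃ b : Fin N → A, emb N b = l := by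
  refine ⟨fun i => (l : ℤ → A) (i : ℕ), ?_⟩
  ext i
  rw [emb_apply]
  unfold embF
  split_ifs with hi
  · simp only
    rw [Int.toNat_of_nonneg hi.1]
  · exact (h i hi).symm

/-- the generator of `ℤ` -/
def sg (A : Type*) [Group A] (k : ℤ) : Lamplighter A := SemidirectProduct.inr (Multiplicative.ofAdd k)

lemma sg_add (k l : ℤ) : sg A (k + l) = sg A k * sg A l := by
  unfold sg
  rw [ofAdd_add, map_mul]

lemma sg_zero : sg A 0 = 1 := by
  unfold sg
  rw [ofAdd_zero, map_one]

lemma sg_neg (k : ℤ) : sg A (-k) = (sg A k)⁻¹ := by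
  rw [eq_inv_iff_mul_eq_one, ← sg_add]
  simp [sg_zero]

lemma sg_conj (k : ℤ) (l : Lamps A) :
    sg A k * SemidirectProduct.inl l = (SemidirectProduct.inl (shift A k l) : Lamplighter A) * sg A k := by
  have h := SemidirectProduct.inl_aut (φ := shiftHom A) (Multiplicative.ofAdd k) l
  have h2 : shiftHom A (Multiplicative.ofAdd k) l = shift A k l := rfl
  rw [h2] at h
  unfold sg
  rw [h, mul_assoc, ← map_mul, inv_mul_cancel, map_one, mul_one]

/-- the elements of the Følner sets -/
def hh (N : ℕ) (p : (Fin N → A) × Fin N) : Lamplighter A :=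
  sg A (-((p.2 : ℕ) : ℤ)) * (SemidirectProduct.inl (emb N p.1))⁻¹

lemma hh_inj (N : ℕ) : Function.Injective (hh N : (Fin N → A) × Fin N → Lamplighter A) := by
  rintro ⟨b, j⟩ ⟨c, k⟩ h
  unfold hh sg at h
  have h1 := congrArg SemidirectProduct.right h
  simp only [SemidirectProduct.mul_right, SemidirectProduct.right_inr, SemidirectProduct.inv_right,
    SemidirectProduct.right_inl, inv_one, mul_one] at h1
  have h2 : (j : ℕ) = k := by
    have := congrArg Multiplicative.toAdd h1
    simp only [toAdd_ofAdd] at this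
    omega
  have h3 : j = k := Fin.ext h2
  subst h3
  have h4 := mul_left_cancel h
  have h5 := emb_inj N (SemidirectProduct.inl_injective (inv_injective h4))
  exact Prod.ext h5 rfl

variable [Finite A]

/-- the Følner sets -/
noncomputable def FF (A : Type*) [Group A] [Finite A] (n : ℕ) : Finset (Lamplighter A) :=
  (Set.finite_range (hh (A := A) (n + 1))).toFinset

lemma mem_FF {n : ℕ} {g : Lamplighter A} : g ∈ FF A n ↔ ∃ p, hh (n + 1) p = g := by
  unfold FF
  simp

lemma FF_card (n : ℕ) : (FF A n).card = Nat.card (Fin (n + 1) → A) * (n + 1) := by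
  unfold FF
  rw [← Set.ncard_eq_toFinset_card _ (Set.finite_range _), ← Set.image_univ, Set.ncard_image_of_injective _ (hh_inj _), Set.ncard_univ,
    Nat.card_prod, Nat.card_fin]

/-- good translates -/
lemma good {n R : ℕ} (l : Lamps A) (k : ℤ) (hk : k.natAbs ≤ R) (hl : ∀ i : ℤ, (l : ℤ → A) i ≠ 1 → i.natAbs + k.natAbs < R)
    (p : (Fin (n + 1) → A) × Fin (n + 1)) (h1 : R ≤ (p.2 : ℕ)) (h2 : (p.2 : ℕ) + R ≤ n) :
    (SemidirectProduct.inl l * sg A k) * hh (n + 1) p ∈ FF A n := by
  rw [mem_FF]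
  obtain ⟨b, j⟩ := p
  simp only at h1 h2
  have hj0 : 0 ≤ (j : ℤ) - k := by omega
  obtain ⟨j', hj'⟩ := Int.eq_ofNat_of_zero_le hj0
  have hj'n : j' < n + 1 := by omega
  have hs : ∀ i : ℤ, ¬ (0 ≤ i ∧ i < ((n + 1 : ℕ) : ℤ)) → ((shift A (j' : ℤ) l * emb (n + 1) b⁻¹ : Lamps A) : ℤ → A) i = 1 := by
    intro i hi
    have e1 : ((shift A (j' : ℤ) l : Lamps A) : ℤ → A) i = 1 := by
      change (l : ℤ → A) (i - j') = 1
      by_contra hc
      have := hl _ hc
      omega
    have e2 : ((emb (n + 1) b⁻¹ : Lamps A) : ℤ → A) i = 1 := by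
      rw [emb_apply]
      unfold embF
      rw [dif_neg hi]
    rw [Subgroup.coe_mul, Pi.mul_apply, e1, e2, mul_one]
  obtain ⟨b', hb'⟩ := emb_surj hs
  refine ⟨(b'⁻¹, ⟨j', hj'n⟩), ?_⟩
  unfold hh
  simp only
  rw [map_inv, map_inv, inv_inv, hb', map_mul, ← mul_assoc, sg_conj]
  have e3 : shift A (-(j' : ℤ)) (shift A (j' : ℤ) l) = l := by
    ext i
    change (l : ℤ → A) (i - -(j' : ℤ) - j') = (l : ℤ → A) i
    rw [sub_neg_eq_add, add_sub_cancel_right]
  rw [e3, map_inv, map_inv, mul_assoc, mul_assoc]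
  congr 1
  rw [← mul_assoc, ← sg_add]
  congr 2
  omega

theorem folner : IsFolner (FF A) := by
  classical
  have := Fintype.ofFinite A
  refine ⟨fun n => ?_, fun g => ?_⟩
  · rw [← Finset.card_pos, FF_card]
    have : 0 < Nat.card (Fin (n + 1) → A) := Nat.card_pos
    positivity
  obtain ⟨l, k, rfl⟩ : ∃ (l : Lamps A) (k : ℤ), g = SemidirectProduct.inl l * sg A k :=
    ⟨g.left, g.right.toAdd, by unfold sg; simp [SemidirectProduct.inl_left_mul_inr_right]⟩
  obtain ⟨r, hr⟩ : ∃ r : ℕ, ∀ i : ℤ, (l : ℤ → A) i ≠ 1 → i.natAbs < r := by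
    have hf : {i | (l : ℤ → A) i ≠ 1}.Finite := l.2
    obtain ⟨r, hr⟩ := (hf.image Int.natAbs).bddAbove
    refine ⟨r + 1, fun i hi => ?_⟩
    have := hr (Set.mem_image_of_mem _ hi)
    omega
  set R : ℕ := r + k.natAbs with hR
  have hcount : ∀ n : ℕ, ({h | h ∈ FF A n ∧ (SemidirectProduct.inl l * sg A k) * h ∉ FF A n} : Set (Lamplighter A)).ncard ≤
      Nat.card (Fin (n + 1) → A) * (2 * R) := by
    intro n
    set J : Finset (Fin (n + 1)) := univ.filter (fun j => (j : ℕ) < R ∨ n < j + R) with hJ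
    have hsub : ({h | h ∈ FF A n ∧ (SemidirectProduct.inl l * sg A k) * h ∉ FF A n} : Set (Lamplighter A)) ⊆
        (((univ : Finset (Fin (n + 1) → A)) ×ˢ J).image (hh (n + 1)) : Finset (Lamplighter A)) := by
      rintro h ⟨h1, h2⟩
      obtain ⟨p, rfl⟩ := mem_FF.mp h1
      rw [Finset.mem_coe, Finset.mem_image]
      refine ⟨p, ?_, rfl⟩
      rw [Finset.mem_product, hJ, mem_filter]
      refine ⟨mem_univ _, mem_univ _, ?_⟩
      by_contra hc
      push Not at hc
      exact h2 (good l k (by omega) (fun i hi => by have := hr i hi; omega) p hc.1 hc.2)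
    have hJc : J.card ≤ 2 * R := by
      have h1 : J.card = (J.image (fun j : Fin (n + 1) => (j : ℕ))).card :=
        (card_image_of_injective _ Fin.val_injective).symm
      rw [h1]
      have h2 : J.image (fun j : Fin (n + 1) => (j : ℕ)) ⊆ range R ∪ Finset.Ioc (n - R) n := by
        intro m hm
        rw [mem_image] at hm
        obtain ⟨j, hj, rfl⟩ := hm
        rw [hJ, mem_filter] at hj
        rw [mem_union, mem_range, Finset.mem_Ioc]
        have := j.2
        omega
      refine (card_le_card h2).trans ((card_union_le _ _).trans ?_)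
      rw [card_range, Nat.card_Ioc]
      omega
    refine (Set.ncard_le_ncard hsub (Finset.finite_toSet _)).trans ?_
    rw [Set.ncard_coe_finset]
    refine card_image_le.trans ?_
    rw [card_product, card_univ, Nat.card_eq_fintype_card]
    exact Nat.mul_le_mul_left _ hJc
  have hlim : Tendsto (fun n : ℕ => (2 * R : ℝ) / ((n : ℝ) + 1)) atTop (𝓝 0) :=
    tendsto_const_div_atTop_nhds_zero_nat (2 * R : ℝ) |>.comp (tendsto_add_atTop_nat 1) |>.congr fun n => by
      simp
  refine squeeze_zero (fun n => by positivity) (fun n => ?_) hlim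
  have hc : (0:ℝ) < Nat.card (Fin (n + 1) → A) := by exact_mod_cast Nat.card_pos
  have hc' : (0:ℝ) < ((Nat.card (Fin (n + 1) → A) * (n + 1) : ℕ) : ℝ) := by
    push_cast
    positivity
  rw [FF_card, div_le_div_iff₀ hc' (by positivity)]
  have := hcount n
  have h2 : (({h | h ∈ FF A n ∧ (SemidirectProduct.inl l * sg A k) * h ∉ FF A n} : Set (Lamplighter A)).ncard : ℝ) ≤
      Nat.card (Fin (n + 1) → A) * (2 * R) := by exact_mod_cast this
  push_cast
  calc (({h | h ∈ FF A n ∧ (SemidirectProduct.inl l * sg A k) * h ∉ FF A n} : Set (Lamplighter A)).ncard : ℝ) * ((n:ℝ) + 1)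
      ≤ (Nat.card (Fin (n + 1) → A) * (2 * R)) * ((n:ℝ) + 1) := by gcongr
    _ = _ := by ring

/-- conjugation of a lamp -/
lemma lamp_conj {N : ℕ} (hN : 0 < N) (j : Fin N) (c : A) :
    sg A ((j : ℕ) : ℤ) * (SemidirectProduct.inl (emb N (Pi.mulSingle ⟨0, hN⟩ c)) : Lamplighter A) =
      SemidirectProduct.inl (emb N (Pi.mulSingle j c)) * sg A ((j : ℕ) : ℤ) := by
  rw [sg_conj]
  congr 2
  ext i
  change embF N (Pi.mulSingle ⟨0, hN⟩ c) (i - j) = embF N (Pi.mulSingle j c) i
  by_cases hi : i = (j : ℕ)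
  · subst hi
    have e0 : ((j : ℕ) : ℤ) - ((j : ℕ) : ℤ) = (((⟨0, hN⟩ : Fin N) : ℕ) : ℤ) := by simp
    rw [e0, embF_nat, embF_nat]
    simp
  · have h1 : embF N (Pi.mulSingle j c) i = 1 := by
      unfold embF
      split_ifs with h
      · rw [Pi.mulSingle_eq_of_ne]
        intro hc
        have := congrArg Fin.val hc
        simp only at this
        omega
      · rfl
    have h2 : embF N (Pi.mulSingle ⟨0, hN⟩ c) (i - j) = 1 := by
      unfold embF
      split_ifs with h
      · rw [Pi.mulSingle_eq_of_ne]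
        intro hc
        have := congrArg Fin.val hc
        simp only at this
        omega
      · rfl
    rw [h1, h2]

end Pool.Agent.V11104.GG
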