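import Pool.Agent.V11104.GG.Meas
import Pool.Agent.V11104.GG.Energy2
import Pool.Agent.V11104.GG.Lamp

set_option autoImplicit false
set_option linter.unusedSectionVars false
set_option maxHeartbeats 400000

/-!
Scaling entropy growth gap of lamplighter groups with non-abelian lamps.
-/

namespace Pool.Agent.V11104.GG

open MeasureTheory Filter Topology Finset Module
open scoped ENNReal NNReal

variable {A : Type*} [Group A] [Fintype A] [DecidableEq A] {X : Type*} [MeasurableSpace X]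
  [MulAction (Lamplighter A) X] {μ : Measure X} [IsProbabilityMeasure μ]

/-- the lamp at the origin -/
def l0 (c : A) : Lamplighter A := SemidirectProduct.inl (emb 1 (Pi.mulSingle 0 c))

lemma emb_single {N : ℕ} (hN : 0 < N) (c : A) : emb N (Pi.mulSingle ⟨0, hN⟩ c) = emb 1 (Pi.mulSingle 0 c) := by
  ext i
  change embF N (Pi.mulSingle ⟨0, hN⟩ c) i = embF 1 (Pi.mulSingle 0 c) i
  by_cases hi : i = 0
  · subst hi
    have h1 : embF N (Pi.mulSingle ⟨0, hN⟩ c) (((⟨0, hN⟩ : Fin N) : ℕ) : ℤ) = c := by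
      rw [embF_nat]; simp
    have h2 : embF 1 (Pi.mulSingle 0 c) (((0 : Fin 1) : ℕ) : ℤ) = c := by
      rw [embF_nat]; simp
    exact h1.trans h2.symm
  · have h1 : embF N (Pi.mulSingle ⟨0, hN⟩ c) i = 1 := by
      unfold embF
      split_ifs with h
      · rw [Pi.mulSingle_eq_of_ne]
        intro hc
        have := congrArg Fin.val hc
        simp only at this
        omega
      · rfl
    have h2 : embF 1 (Pi.mulSingle 0 c) i = 1 := by
      unfold embF
      rw [dif_neg]
      omega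
    rw [h1, h2]

lemma l0_mul (c d : A) : l0 (c * d) = l0 c * l0 d := by
  unfold l0
  rw [ms_mul, map_mul, map_mul]

lemma l0_inj : Function.Injective (l0 : A → Lamplighter A) := by
  intro c d h
  have h1 := emb_inj 1 (SemidirectProduct.inl_injective h)
  have := congrFun h1 0
  simpa using this

lemma l0_one : l0 (1 : A) = 1 := by
  unfold l0
  rw [Pi.mulSingle_one, map_one, map_one]

lemma l0_inv (c : A) : (l0 c⁻¹ : Lamplighter A)⁻¹ = l0 c := by
  rw [inv_eq_iff_mul_eq_one, ← l0_mul, inv_mul_cancel, l0_one]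

lemma koop_norm {G : Type*} [Group G] [MulAction G X] (hmp : ∀ g : G, MeasurePreserving (fun x : X => g • x) μ μ)
    (g : G) (v : Lp ℂ 2 μ) : ‖koop hmp g v‖ = ‖v‖ :=
  (Lp.compMeasurePreservingₗᵢ ℂ (fun x : X => g⁻¹ • x) (hmp g⁻¹)).norm_map v

lemma koop_mul {G : Type*} [Group G] [MulAction G X] (hmp : ∀ g : G, MeasurePreserving (fun x : X => g • x) μ μ)
    (g h : G) (v : Lp ℂ 2 μ) : koop hmp (g * h) v = koop hmp g (koop hmp h v) := by
  rw [map_mul]; rfl

/-- the part of the function orthogonal to the invariants of the lamp at the origin -/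
noncomputable def V0 (hmp : ∀ g : Lamplighter A, MeasurePreserving (fun x : X => g • x) μ μ) (U : Lp ℂ 2 μ) : Lp ℂ 2 μ :=
  U - ((Nat.card (commutator A) : ℂ)⁻¹) • ∑ c : commutator A, koop hmp (l0 (c : A)) U

lemma V0_pos (hmp : ∀ g : Lamplighter A, MeasurePreserving (fun x : X => g • x) μ μ) {u : X → ℝ} (h : Bd u)
    {z : A} (hz : z ∈ commutator A) (hu : ¬ ∀ᵐ x ∂μ, u (l0 z • x) = u x) : 0 < ‖V0 hmp (tl μ h)‖ ^ 2 := by
  have hne : V0 hmp (tl μ h) ≠ 0 := by
    intro h0
    apply hu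
    unfold V0 at h0
    rw [sub_eq_zero] at h0
    have h1 : koop hmp (l0 z⁻¹) (tl μ h) = tl μ h := by
      conv_lhs => rw [h0]
      conv_rhs => rw [h0]
      rw [map_smul, map_sum]
      congr 1
      refine Fintype.sum_equiv (Equiv.mulLeft (⟨z⁻¹, inv_mem hz⟩ : commutator A)) _ _ fun c => ?_
      rw [← koop_mul, ← l0_mul]
      rfl
    rw [koop_tl] at h1
    have h2 := tl_ae (μ := μ) (h.comp (hmp (l0 z⁻¹)⁻¹).measurable)
    have h3 := tl_ae (μ := μ) h
    rw [h1] at h2
    filter_upwards [h2, h3] with x a2 a3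
    rw [a3, l0_inv] at a2
    exact_mod_cast a2.symm
  have := norm_pos_iff.mpr hne
  positivity

/-- the representation of the lamps on `[0, N)` -/
noncomputable def kL (hmp : ∀ g : Lamplighter A, MeasurePreserving (fun x : X => g • x) μ μ) (N : ℕ) :
    (Fin N → A) →* Module.End ℂ (Lp ℂ 2 μ) :=
  (koop hmp).comp ((SemidirectProduct.inl : Lamps A →* Lamplighter A).comp (emb N))

lemma kL_apply (hmp : ∀ g : Lamplighter A, MeasurePreserving (fun x : X => g • x) μ μ) (N : ℕ) (b : Fin N → A)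
    (v : Lp ℂ 2 μ) : kL hmp N b v = koop hmp (SemidirectProduct.inl (emb N b)) v := rfl

/-- translates of the function -/
noncomputable def PhiL (hmp : ∀ g : Lamplighter A, MeasurePreserving (fun x : X => g • x) μ μ) (U : Lp ℂ 2 μ)
    (N : ℕ) (j : Fin N) : Lp ℂ 2 μ := koop hmp (sg A ((j : ℕ) : ℤ)) U

lemma ff_eq (hmp : ∀ g : Lamplighter A, MeasurePreserving (fun x : X => g • x) μ μ) (U : Lp ℂ 2 μ)
    (N : ℕ) (j : Fin N) : ff (kL hmp N) (PhiL hmp U N) j = koop hmp (sg A ((j : ℕ) : ℤ)) (V0 hmp U) := by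
  have hN : 0 < N := j.pos
  unfold ff V0
  rw [map_sub, map_smul, map_sum]
  unfold PhiL
  congr 2
  refine sum_congr rfl fun c _ => ?_
  rw [kL_apply, ← koop_mul, ← lamp_conj hN, koop_mul, emb_single hN]
  rfl

lemma lip {ρ : X → X → ℝ} (hρ : IsSemimetric ρ) (a b y : X) :
    |min (ρ a y) 1 - min (ρ b y) 1| ^ 2 ≤ min (ρ a b) 1 := by
  have h1 := hρ.tri a b y
  have h2 := hρ.tri b a y
  have h3 := hρ.symm a b
  have p1 := hρ.nonneg a y
  have p2 := hρ.nonneg b y
  have p3 := hρ.nonneg a b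
  have q1 : 0 ≤ min (ρ a y) 1 := le_min p1 zero_le_one
  have q2 : 0 ≤ min (ρ b y) 1 := le_min p2 zero_le_one
  have q3 : min (ρ a y) 1 ≤ 1 := min_le_right _ _
  have q4 : min (ρ b y) 1 ≤ 1 := min_le_right _ _
  have r1 : |min (ρ a y) 1 - min (ρ b y) 1| ≤ ρ a b := by
    refine (abs_min_sub_min_le_max _ _ _ _).trans ?_
    rw [sub_self, abs_zero]
    refine max_le ?_ p3
    rw [abs_le]
    constructor <;> linarith
  have r2 : |min (ρ a y) 1 - min (ρ b y) 1| ≤ 1 := by
    rw [abs_le]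
    constructor <;> linarith
  refine le_min ?_ ?_
  · nlinarith [abs_nonneg (min (ρ a y) 1 - min (ρ b y) 1)]
  · nlinarith [abs_nonneg (min (ρ a y) 1 - min (ρ b y) 1)]

lemma sum_FF (n : ℕ) (t : Lamplighter A → ℝ) :
    ∑ h ∈ FF A n, t h = ∑ p : (Fin (n + 1) → A) × Fin (n + 1), t (hh (n + 1) p) := by
  classical
  have h1 : FF A n = (univ : Finset ((Fin (n + 1) → A) × Fin (n + 1))).image (hh (n + 1)) := by
    ext g
    rw [mem_FF]
    simp
  rw [h1, sum_image]
  intro a _ b _ hab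
  exact hh_inj _ hab

/-- the number of pieces -/
theorem pieces (hmp : ∀ g : Lamplighter A, MeasurePreserving (fun x : X => g • x) μ μ)
    {ρ : X → X → ℝ} (hρ : IsSemimetric ρ) {g₀ : Lamplighter A} {y₀ : X}
    (hB : Bd fun x => min (ρ (g₀ • x) y₀) 1) {M : ℝ} (hM : M = ‖V0 hmp (tl μ hB)‖ ^ 2) (hM0 : 0 < M)
    {n : ℕ} (hbad : (({h | h ∈ FF A n ∧ g₀ * h ∉ FF A n} : Set (Lamplighter A)).ncard : ℝ) / (FF A n).card ≤ M / 32)
    {k : ℕ} (hk : Cuts μ (avgOver (FF A n) ρ) (M / 32) k) : n ≤ k := by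
  classical
  obtain ⟨P, hPm, hU, hP0, hD⟩ := hk
  obtain ⟨s, hs, hsP⟩ := choice hPm hU
  obtain ⟨x₀⟩ : Nonempty X := by
    by_contra hne
    rw [not_nonempty_iff] at hne
    have h1 : μ Set.univ = 1 := measure_univ
    rw [Set.univ_eq_empty_iff.mpr hne, measure_empty] at h1
    exact zero_ne_one h1
  have hxp : ∃ xp : Fin (k + 1) → X, ∀ i, (P i).Nonempty → xp i ∈ P i := by
    refine ⟨fun i => if h : (P i).Nonempty then h.some else x₀, fun i hi => ?_⟩
    simp only [dif_pos hi]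
    exact hi.some_mem
  obtain ⟨xp, hxp⟩ := hxp
  set u : X → ℝ := fun x => min (ρ (g₀ • x) y₀) 1 with hu
  obtain ⟨F, hF⟩ : ∃ F : ℝ, F = ((FF A n).card : ℝ) := ⟨_, rfl⟩
  have hFN : F = Fintype.card (Fin (n + 1) → A) * ((n + 1 : ℕ) : ℝ) := by
    rw [hF, FF_card, Nat.card_eq_fintype_card]
    push_cast
    ring
  have hF0 : 0 < F := by
    rw [hF]
    exact_mod_cast Finset.card_pos.mpr (folner.1 n)
  set bad : ℝ := (({h | h ∈ FF A n ∧ g₀ * h ∉ FF A n} : Set (Lamplighter A)).ncard : ℝ) with hbd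
  have hbad' : bad ≤ M / 32 * F := by rwa [← hF, div_le_iff₀ hF0] at hbad
  set c : (Fin (n + 1) → A) × Fin (n + 1) → Fin (k + 1) → ℂ :=
    fun p i => if i = 0 then 0 else (u (hh (n + 1) p • xp i) : ℂ) with hc
  set v : (Fin (n + 1) → A) × Fin (n + 1) → Lp ℂ 2 μ :=
    fun p => kL hmp (n + 1) p.1 (PhiL hmp (tl μ hB) (n + 1) p.2) - st μ hs (c p) with hv
  have hvae : ∀ p, ∀ᵐ x ∂μ, (v p : X → ℂ) x = (u (hh (n + 1) p • x) : ℂ) - c p (s x) := by
    intro p
    have e1 : kL hmp (n + 1) p.1 (PhiL hmp (tl μ hB) (n + 1) p.2) = tl μ (hB.comp (hmp (hh (n + 1) p)).measurable) := by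
      rw [kL_apply]
      unfold PhiL
      refine koop_koop_tl hmp _ _ (hh (n + 1) p) ?_ hB
      unfold hh
      rw [mul_inv_rev, sg_neg]
    have e2 := Lp.coeFn_sub (tl μ (hB.comp (hmp (hh (n + 1) p)).measurable)) (st μ hs (c p))
    have e3 := tl_ae (μ := μ) (hB.comp (hmp (hh (n + 1) p)).measurable)
    have e4 := st_ae (μ := μ) hs (c p)
    have e5 : v p = tl μ (hB.comp (hmp (hh (n + 1) p)).measurable) - st μ hs (c p) := by
      rw [hv]
      simp only
      rw [e1]
    rw [e5]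
    filter_upwards [e2, e3, e4] with x a2 a3 a4
    rw [a2, Pi.sub_apply, a3, a4]
  have hpt : ∀ᵐ x ∂μ, ∑ p, ‖(v p : X → ℂ) x‖ ^ 2 ≤ F * ({x | s x = 0}.indicator (fun _ => (1:ℝ)) x) + (M / 32 * F + bad) := by
    have hall := ae_all_iff.mpr hvae
    filter_upwards [hall] with x hx
    have h1 : ∑ p, ‖(v p : X → ℂ) x‖ ^ 2 = ∑ p, ‖(u (hh (n + 1) p • x) : ℂ) - c p (s x)‖ ^ 2 :=
      sum_congr rfl fun p _ => by rw [hx p]
    rw [h1]
    have hbad0 : 0 ≤ bad := Nat.cast_nonneg _
    by_cases h0 : s x = 0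
    · rw [Set.indicator_of_mem (show x ∈ {x | s x = 0} from h0), mul_one]
      have h2 : ∑ p, ‖(u (hh (n + 1) p • x) : ℂ) - c p (s x)‖ ^ 2 ≤ ∑ p : (Fin (n + 1) → A) × Fin (n + 1), (1:ℝ) := by
        refine sum_le_sum fun p _ => ?_
        rw [hc]
        simp only [h0, if_true, sub_zero]
        rw [Complex.norm_real, Real.norm_eq_abs]
        have := hB.2 (hh (n + 1) p • x)
        exact pow_le_one₀ (abs_nonneg _) this
      have h3 : ∑ p : (Fin (n + 1) → A) × Fin (n + 1), (1:ℝ) = F := by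
        rw [sum_const, card_univ, Fintype.card_prod, Fintype.card_fin, hFN]
        simp
      rw [h3] at h2
      have : 0 ≤ M / 32 * F := by positivity
      linarith
    · rw [Set.indicator_of_notMem (show x ∉ {x | s x = 0} from h0), mul_zero, zero_add]
      have hne : (P (s x)).Nonempty := ⟨x, hsP x⟩
      obtain ⟨D, hD1, hD2⟩ := hD (s x) h0
      have h2 := hD2 x (hsP x) (xp (s x)) (hxp _ hne)
      have h3 : ∑ p, ‖(u (hh (n + 1) p • x) : ℂ) - c p (s x)‖ ^ 2 ≤
          ∑ p : (Fin (n + 1) → A) × Fin (n + 1), min (ρ (g₀ • hh (n + 1) p • x) (g₀ • hh (n + 1) p • xp (s x))) 1 := by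
        refine sum_le_sum fun p _ => ?_
        rw [hc]
        simp only [h0, if_false]
        rw [← Complex.ofReal_sub, Complex.norm_real, Real.norm_eq_abs]
        exact lip hρ _ _ _
      rw [← sum_FF n (fun h => min (ρ (g₀ • h • x) (g₀ • h • xp (s x))) 1)] at h3
      have h4 := trunc_sum (FF A n) ρ hρ.nonneg g₀ x (xp (s x))
      have h5 : ∑ h ∈ FF A n, ρ (h • x) (h • xp (s x)) = avgOver (FF A n) ρ x (xp (s x)) * F := by
        unfold avgOver
        rw [← hF, div_mul_cancel₀ _ hF0.ne']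
      have h6 : avgOver (FF A n) ρ x (xp (s x)) * F ≤ M / 32 * F :=
        mul_le_mul_of_nonneg_right (h2.trans hD1.le) hF0.le
      linarith
  have hint : ∀ p, Integrable (fun x => ‖(v p : X → ℂ) x‖ ^ 2) μ := fun p =>
    (memLp_two_iff_integrable_sq_norm (Lp.aestronglyMeasurable (v p))).mp (Lp.memLp (v p))
  have hm0 : MeasurableSet {x | s x = 0} := hs (measurableSet_singleton _)
  have hsum : ∑ p, ‖v p‖ ^ 2 ≤ M / 8 * (Fintype.card (Fin (n + 1) → A) * ((n + 1 : ℕ) : ℝ)) := by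
    rw [← hFN]
    calc ∑ p, ‖v p‖ ^ 2 = ∑ p, ∫ x, ‖(v p : X → ℂ) x‖ ^ 2 ∂μ := sum_congr rfl fun p _ => norm_sq_int _
      _ = ∫ x, ∑ p, ‖(v p : X → ℂ) x‖ ^ 2 ∂μ := (integral_finset_sum _ fun p _ => hint p).symm
      _ ≤ ∫ x, (F * ({x | s x = 0}.indicator (fun _ => (1:ℝ)) x) + (M / 32 * F + bad)) ∂μ := by
          refine integral_mono_ae (integrable_finset_sum _ fun p _ => hint p) ?_ hpt
          exact (((integrable_const _).indicator hm0).const_mul F).add (integrable_const _)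
      _ = F * μ.real {x | s x = 0} + (M / 32 * F + bad) := by
          rw [integral_add (((integrable_const _).indicator hm0).const_mul F) (integrable_const _),
            integral_const_mul, integral_indicator_const _ hm0, integral_const]
          simp
      _ ≤ F * (M / 32) + (M / 32 * F + M / 32 * F) := by
          have h1 : μ.real {x | s x = 0} ≤ M / 32 := by
            have h2 : {x | s x = 0} ⊆ P 0 := fun x hx => by
              have := hsP x
              rwa [show s x = 0 from hx] at this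
            have h3 : μ {x | s x = 0} ≤ ENNReal.ofReal (M / 32) := (measure_mono h2).trans hP0.le
            exact ENNReal.toReal_le_of_le_ofReal (by positivity) h3
          have := mul_le_mul_of_nonneg_left h1 hF0.le
          linarith
      _ ≤ M / 8 * F := by
          have : 0 < M * F := by positivity
          linarith
  have hrank := rank_bound (κ := kL hmp (n + 1)) (fun b v w => koop_inner hmp _ v w)
    (PhiL hmp (tl μ hB) (n + 1)) (M := M) (η := M / 8) hM0
    (fun j => by rw [ff_eq, koop_norm, hM]) (by linarith) (LinearMap.range (st μ hs))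
    (fun p => st μ hs (c p)) (fun p => LinearMap.mem_range_self _ _) hsum
  have h9 : finrank ℂ (LinearMap.range (st μ hs)) ≤ k + 1 := by
    refine (LinearMap.finrank_range_le _).trans ?_
    rw [Module.finrank_fintype_fun_eq_card, Fintype.card_fin]
  omega

end Pool.Agent.V11104.GG
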