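import Mathlib

set_option autoImplicit false

/-!
Scaling entropy growth gaps, lamplighter groups.
-/

namespace Pool.Agent.V11104.GG

open MeasureTheory Filter Topology
open scoped ENNReal NNReal

/-- The group `⨁_ℤ A`: the functions `ℤ → A` that are trivial outside a finite set. -/
def Lamps (A : Type*) [Group A] : Subgroup (ℤ → A) where
  carrier := {f | {i | f i ≠ 1}.Finite}
  mul_mem' := by
    intro f g hf hg
    refine (hf.union hg).subset fun i hi => ?_
    by_contra h
    simp only [Set.mem_union, Set.mem_ofPred_eq, not_or, not_not] at h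
    exact hi (by simp [h.1, h.2])
  one_mem' := by simp
  inv_mem' := by
    intro f hf
    refine hf.subset fun i hi => ?_
    simpa using hi

/-- The shift of the coordinates by `k`. -/
def shift (A : Type*) [Group A] (k : ℤ) : MulAut (Lamps A) where
  toFun f := ⟨fun i => f.1 (i - k), (f.2.image (· + k)).subset fun i hi => ⟨i - k, hi, by simp⟩⟩
  invFun f := ⟨fun i => f.1 (i + k), (f.2.image (· - k)).subset fun i hi => ⟨i + k, hi, by simp⟩⟩
  left_inv f := by ext i; simp
  right_inv f := by ext i; simp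
  map_mul' f g := rfl

/-- `ℤ` acts on `⨁_ℤ A` by shifting the coordinates. -/
def shiftHom (A : Type*) [Group A] : Multiplicative ℤ →* MulAut (Lamps A) where
  toFun k := shift A k.toAdd
  map_one' := by
    ext f i
    simp [shift]
  map_mul' k l := by
    ext f i
    change f.1 (i - (k.toAdd + l.toAdd)) = f.1 (i - k.toAdd - l.toAdd)
    rw [sub_sub]

/-- The lamplighter group `A ≀ ℤ = (⨁_ℤ A) ⋊ ℤ`. -/
abbrev Lamplighter (A : Type*) [Group A] : Type _ := Lamps A ⋊[shiftHom A] Multiplicative ℤ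

/-- A Følner sequence of a group: nonempty finite sets `F n` with
`|g F n \ F n| / |F n| → 0` for every `g`. -/
def IsFolner {G : Type*} [Group G] (F : ℕ → Finset G) : Prop :=
  (∀ n, (F n).Nonempty) ∧
  ∀ g : G, Tendsto (fun n => (({h | h ∈ F n ∧ g * h ∉ F n} : Set G).ncard : ℝ) / (F n).card) atTop (𝓝 0)

/-- A measurable semimetric: measurable, nonnegative, symmetric, with the triangle inequality. -/
structure IsSemimetric {X : Type*} [MeasurableSpace X] (ρ : X → X → ℝ) : Prop where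
  meas : Measurable fun p : X × X => ρ p.1 p.2
  nonneg : ∀ x y, 0 ≤ ρ x y
  symm : ∀ x y, ρ x y = ρ y x
  tri : ∀ x y z, ρ x z ≤ ρ x y + ρ y z

/-- `ρ` is generating: on a set of full measure the functions `ρ (g x) (g y)` separate the points. -/
def IsGenerating (G : Type*) [Group G] {X : Type*} [MeasurableSpace X] [MulAction G X] (μ : Measure X)
    (ρ : X → X → ℝ) : Prop :=
  ∃ X' : Set X, μ X'ᶜ = 0 ∧ ∀ x ∈ X', ∀ y ∈ X', x ≠ y → ∃ g : G, 0 < ρ (g • x) (g • y)

/-- `X = P 0 ∪ P 1 ∪ … ∪ P k` with measurable pieces, `μ (P 0) < ε` and diameters less than `ε` of the other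
pieces. -/
def Cuts {X : Type*} [MeasurableSpace X] (μ : Measure X) (ρ : X → X → ℝ) (ε : ℝ) (k : ℕ) : Prop :=
  ∃ P : Fin (k + 1) → Set X, (∀ i, MeasurableSet (P i)) ∧ (⋃ i, P i) = Set.univ ∧
    μ (P 0) < ENNReal.ofReal ε ∧ ∀ i, i ≠ 0 → ∃ D < ε, ∀ x ∈ P i, ∀ y ∈ P i, ρ x y ≤ D

/-- `ℍ_ε(X, μ, ρ)`: the binary logarithm of the least positive `k` as in `Cuts` (`⊤` if there is none). -/
noncomputable def Hent {X : Type*} [MeasurableSpace X] (μ : Measure X) (ρ : X → X → ℝ) (ε : ℝ) : ℝ≥0∞ :=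
  ⨅ (k : ℕ) (_ : 1 ≤ k ∧ Cuts μ ρ ε k), ENNReal.ofReal (Real.logb 2 k)

/-- The average of the semimetrics `ρ (g x) (g y)` over `g` in `F`. -/
noncomputable def avgOver {G : Type*} [Group G] {X : Type*} [MulAction G X] (F : Finset G) (ρ : X → X → ℝ) :
    X → X → ℝ :=
  fun x y => (∑ g ∈ F, ρ (g • x) (g • y)) / F.card

/-- `Φ ≾ Ψ`: for every `ε > 0` there is `δ > 0` with `limsup Φ(n, ε) / Ψ(n, δ) < ∞`. -/
def Prec (Φ Ψ : ℕ → ℝ → ℝ≥0∞) : Prop :=
  ∀ ε > 0, ∃ δ > 0, limsup (fun n => Φ n ε / Ψ n δ) atTop < ⊤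

/-- `G` has a scaling entropy growth gap: for some Følner sequence `F` there is an unbounded `φ` such that for every
essentially free p.m.p. action of `G` on a standard probability space, `φ ≾ Φ_ρ` for every summable admissible
generating semimetric `ρ`. -/
def GrowthGap (G : Type*) [Group G] : Prop :=
  ∃ F : ℕ → Finset G, IsFolner F ∧ ∃ φ : ℕ → ℝ≥0, (∀ C : ℝ≥0, ∃ n, C < φ n) ∧
    ∀ (X : Type) [MeasurableSpace X] [StandardBorelSpace X] [MulAction G X] (μ : Measure X)
      [IsProbabilityMeasure μ], (∀ g : G, MeasurePreserving (fun x : X => g • x) μ μ) →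
      (∀ g : G, g ≠ 1 → μ {x | g • x = x} = 0) →
      ∀ ρ : X → X → ℝ, IsSemimetric ρ → Integrable (fun p : X × X => ρ p.1 p.2) (μ.prod μ) →
        (∀ ε > 0, Hent μ ρ ε < ⊤) → IsGenerating G μ ρ →
        Prec (fun n _ => φ n) (fun n ε => Hent μ (avgOver (F n) ρ) ε)

end Pool.Agent.V11104.GG
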