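import Pool.Agent.V11104.GG.Lin

set_option autoImplicit false
set_option linter.unusedSectionVars false

/-!
The energy of an orbit along a vector, and the rank of approximations of the orbit.
-/

namespace Pool.Agent.V11104.GG

open Finset Module

variable {A : Type*} [Group A] {N : ℕ}
variable {H : Type*} [NormedAddCommGroup H] [InnerProductSpace ℂ H]
variable {κ : (Fin N → A) →* Module.End ℂ H}

lemma nrm (hκ : ∀ b v w, (inner ℂ (κ b v) (κ b w)) = (inner ℂ (v) (w))) (b : Fin N → A) (v : H) : ‖κ b v‖ = ‖v‖ := by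
  have h := hκ b v v
  rw [inner_self_eq_norm_sq_to_K, inner_self_eq_norm_sq_to_K] at h
  have h2 : ‖κ b v‖ ^ 2 = ‖v‖ ^ 2 := by exact_mod_cast h
  exact (pow_left_inj₀ (norm_nonneg _) (norm_nonneg _) two_ne_zero).mp h2

lemma perp (hκ : ∀ b v w, (inner ℂ (κ b v) (κ b w)) = (inner ℂ (v) (w))) {j : Fin N} {f : H}
    (hf : ∀ w ∈ Fx κ j, (inner ℂ (f) (w)) = 0) (b : Fin N → A) {w : H} (hw : w ∈ Fx κ j) : (inner ℂ (κ b f) (w)) = 0 := by
  rw [adj' hκ]
  exact hf _ (Fx_inv hw _)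

variable [Fintype A] [DecidableEq A]

/-- the frame operator of the orbits of the vectors `f j` -/
noncomputable def TH (κ : (Fin N → A) →* Module.End ℂ H) (f : Fin N → H) : H →ₗ[ℂ] H :=
  ∑ p : (Fin N → A) × Fin N, (innerₛₗ ℂ (κ p.1 (f p.2))).smulRight (κ p.1 (f p.2))

lemma TH_apply (f : Fin N → H) (v : H) :
    TH κ f v = ∑ p : (Fin N → A) × Fin N, (inner ℂ (κ p.1 (f p.2)) (v)) • κ p.1 (f p.2) := by
  simp [TH, LinearMap.sum_apply]

lemma TH_inner (f : Fin N → H) (v w : H) :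
    (inner ℂ (v) (TH κ f w)) = ∑ p : (Fin N → A) × Fin N, (inner ℂ (κ p.1 (f p.2)) (w)) * (inner ℂ (v) (κ p.1 (f p.2))) := by
  rw [TH_apply, inner_sum]
  exact sum_congr rfl fun p _ => inner_smul_right _ _ _

lemma TH_inner' (f : Fin N → H) (v w : H) :
    (inner ℂ (TH κ f v) (w)) = ∑ p : (Fin N → A) × Fin N, (inner ℂ (κ p.1 (f p.2)) (w)) * (inner ℂ (v) (κ p.1 (f p.2))) := by
  rw [TH_apply, sum_inner]
  refine sum_congr rfl fun p _ => ?_
  rw [inner_smul_left, inner_conj_symm, mul_comm]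

lemma TH_self (f : Fin N → H) (v : H) :
    ((inner ℂ (TH κ f v) (v))).re = ∑ p : (Fin N → A) × Fin N, ‖(inner ℂ (κ p.1 (f p.2)) (v))‖ ^ 2 := by
  rw [TH_inner', Complex.re_sum]
  refine sum_congr rfl fun p _ => ?_
  rw [← inner_conj_symm v, ← Complex.normSq_eq_norm_sq, Complex.mul_conj]
  simp

lemma TH_comm (hκ : ∀ b v w, (inner ℂ (κ b v) (κ b w)) = (inner ℂ (v) (w))) (f : Fin N → H) (c : Fin N → A) (v : H) :
    TH κ f (κ c v) = κ c (TH κ f v) := by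
  rw [TH_apply, TH_apply, map_sum, Fintype.sum_prod_type, Fintype.sum_prod_type]
  refine (Fintype.sum_equiv (Equiv.mulLeft c) _ _ fun b => ?_).symm
  refine sum_congr rfl fun j _ => ?_
  simp only [Equiv.coe_mulLeft, map_smul]
  rw [kmul, hκ]

/-- the eigenvalues of the frame operator -/
lemma eig_le (hκ : ∀ b v w, (inner ℂ (κ b v) (κ b w)) = (inner ℂ (v) (w))) (f : Fin N → H) {M : ℝ} (hM0 : 0 ≤ M)
    (hM : ∀ j, ‖f j‖ ^ 2 ≤ M) (hf : ∀ j, ∀ w ∈ Fx κ j, (inner ℂ (f j) (w)) = 0) {l : ℝ} {v : H} (hv : v ≠ 0)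
    (hl : TH κ f v = (l : ℂ) • v) : l ≤ Fintype.card (Fin N → A) * M / 2 := by
  classical
  rcases le_or_gt l 0 with h0 | h0
  · exact h0.trans (by positivity)
  set Z : Submodule ℂ H := Module.End.eigenspace (TH κ f : Module.End ℂ H) (l : ℂ) with hZ
  have hZb : Z ≠ ⊥ := by
    intro h
    have : v ∈ Z := Module.End.mem_eigenspace_iff.mpr hl
    rw [h, Submodule.mem_bot] at this
    exact hv this
  set V : Submodule ℂ H := Submodule.span ℂ (Set.range fun p : (Fin N → A) × Fin N => κ p.1 (f p.2)) with hV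
  have hVf : FiniteDimensional ℂ V := FiniteDimensional.span_of_finite ℂ (Set.finite_range _)
  have hZV : Z ≤ V := by
    intro z hz
    have h1 : TH κ f z = (l : ℂ) • z := Module.End.mem_eigenspace_iff.mp hz
    have h2 : TH κ f z ∈ V := by
      rw [TH_apply]
      exact Submodule.sum_mem _ fun p _ => Submodule.smul_mem _ _ (Submodule.subset_span ⟨p, rfl⟩)
    have hl0 : (l : ℂ) ≠ 0 := by exact_mod_cast h0.ne'
    have h3 : z = (l : ℂ)⁻¹ • TH κ f z := by rw [h1, smul_smul, inv_mul_cancel₀ hl0, one_smul]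
    rw [h3]
    exact Submodule.smul_mem _ _ h2
  have hZinv : ∀ b, ∀ w ∈ Z, κ b w ∈ Z := by
    intro b w hw
    refine Module.End.mem_eigenspace_iff.mpr ?_
    have h1 : TH κ f w = (l : ℂ) • w := Module.End.mem_eigenspace_iff.mp hw
    rw [TH_comm hκ, h1, map_smul]
  obtain ⟨Z', S, z1, z2, z3, z4, z5⟩ := greedy (κ := κ) univ Z hZb hZinv
  have hZ'f : FiniteDimensional ℂ Z' := Submodule.finiteDimensional_of_le (z1.trans hZV)
  have hd := dimlow hκ S Z' hZ'f z2 (fun i _ a w hw => z3 _ w hw) z4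
  set e := stdOrthonormalBasis ℂ Z' with he
  have hon : Orthonormal ℂ (fun i => ((e i : Z') : H)) := by
    have := e.orthonormal.comp_linearIsometry Z'.subtypeₗᵢ
    exact this
  have h1 : ∀ i, ((inner ℂ (TH κ f (e i : H)) ((e i : H)))).re = l := by
    intro i
    have h2 : TH κ f (e i : H) = (l : ℂ) • (e i : H) := Module.End.mem_eigenspace_iff.mp (z1 (e i).2)
    rw [h2, inner_smul_left, Complex.conj_ofReal, Complex.re_ofReal_mul, inner_self_eq_norm_sq_to_K, hon.1 i]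
    simp
  have h3 : (finrank ℂ Z' : ℝ) * l = ∑ p : (Fin N → A) × Fin N, ∑ i, ‖(inner ℂ (κ p.1 (f p.2)) ((e i : H)))‖ ^ 2 := by
    rw [sum_comm]
    simp_rw [← TH_self, h1]
    simp
  have h4 : ∑ p : (Fin N → A) × Fin N, ∑ i, ‖(inner ℂ (κ p.1 (f p.2)) ((e i : H)))‖ ^ 2 ≤
      ∑ p : (Fin N → A) × Fin N, if p.2 ∈ S then M else 0 := by
    refine sum_le_sum fun p _ => ?_
    split_ifs with hp
    · calc ∑ i, ‖(inner ℂ (κ p.1 (f p.2)) ((e i : H)))‖ ^ 2 = ∑ i, ‖(inner ℂ ((e i : H)) (κ p.1 (f p.2)))‖ ^ 2 :=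
            sum_congr rfl fun i _ => by rw [norm_inner_symm]
        _ ≤ ‖κ p.1 (f p.2)‖ ^ 2 := hon.sum_inner_products_le _
        _ ≤ M := by rw [nrm hκ]; exact hM _
    · refine le_of_eq (sum_eq_zero fun i _ => ?_)
      rw [perp hκ (hf p.2) p.1 (z5 p.2 (mem_univ _) hp (e i).2), norm_zero]
      norm_num
  have h5 : ∑ p : (Fin N → A) × Fin N, (if p.2 ∈ S then M else 0) = Fintype.card (Fin N → A) * (S.card * M) := by
    rw [Fintype.sum_prod_type]
    simp only [sum_const, card_univ, nsmul_eq_mul, sum_ite_mem, univ_inter]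
  have h6 : (finrank ℂ Z' : ℝ) * l ≤ Fintype.card (Fin N → A) * (S.card * M) := h3.le.trans (h4.trans h5.le)
  have h7 : (2:ℝ) * S.card ≤ finrank ℂ Z' := by
    have := (two_mul_le_pow S.card).trans hd
    exact_mod_cast this
  have h8 : (0:ℝ) < finrank ℂ Z' := by
    have : 0 < finrank ℂ Z' := lt_of_lt_of_le (by positivity) hd
    exact_mod_cast this
  have h9 : (finrank ℂ Z' : ℝ) * l ≤ finrank ℂ Z' * (Fintype.card (Fin N → A) * M / 2) := by
    refine h6.trans ?_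
    have hK : (0:ℝ) ≤ Fintype.card (Fin N → A) * M := by positivity
    nlinarith only [h7, hK]
  exact le_of_mul_le_mul_left h9 h8

/-- the energy along a vector -/
theorem energy (hκ : ∀ b v w, (inner ℂ (κ b v) (κ b w)) = (inner ℂ (v) (w))) (f : Fin N → H) {M : ℝ} (hM0 : 0 ≤ M)
    (hM : ∀ j, ‖f j‖ ^ 2 ≤ M) (hf : ∀ j, ∀ w ∈ Fx κ j, (inner ℂ (f j) (w)) = 0) (v : H) :
    ∑ p : (Fin N → A) × Fin N, ‖(inner ℂ (κ p.1 (f p.2)) (v))‖ ^ 2 ≤ Fintype.card (Fin N → A) * M / 2 * ‖v‖ ^ 2 := by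
  classical
  set V : Submodule ℂ H := Submodule.span ℂ (Set.range fun p : (Fin N → A) × Fin N => κ p.1 (f p.2)) with hV
  have hVf : FiniteDimensional ℂ V := FiniteDimensional.span_of_finite ℂ (Set.finite_range _)
  have hmem : ∀ p : (Fin N → A) × Fin N, κ p.1 (f p.2) ∈ V := fun p => Submodule.subset_span ⟨p, rfl⟩
  have hTV : ∀ x : H, TH κ f x ∈ V := by
    intro x
    rw [TH_apply]
    exact Submodule.sum_mem _ fun p _ => Submodule.smul_mem _ _ (hmem p)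
  -- enough for vectors of V
  suffices hs : ∀ x : V, ∑ p : (Fin N → A) × Fin N, ‖(inner ℂ (κ p.1 (f p.2)) ((x : H)))‖ ^ 2 ≤
      Fintype.card (Fin N → A) * M / 2 * ‖x‖ ^ 2 by
    have h1 := hs (V.orthogonalProjectionOnto v)
    have h2 : ∀ p : (Fin N → A) × Fin N, (inner ℂ (κ p.1 (f p.2)) (((V.orthogonalProjectionOnto v : V) : H))) =
        (inner ℂ (κ p.1 (f p.2)) (v)) := by
      intro p
      have := Submodule.inner_orthogonalProjectionOnto_eq_of_mem_left (K := V) ⟨κ p.1 (f p.2), hmem p⟩ v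
      rw [Submodule.coe_inner] at this
      exact this
    simp_rw [h2] at h1
    refine h1.trans ?_
    have h3 : ‖V.orthogonalProjectionOnto v‖ ≤ ‖v‖ := Submodule.norm_orthogonalProjectionOnto_apply_le V v
    gcongr
  rcases subsingleton_or_nontrivial V with hsub | hnt
  · intro x
    have hx : x = 0 := Subsingleton.elim _ _
    rw [hx]
    simp
  set T : V →ₗ[ℂ] V := (TH κ f).restrict fun x _ => hTV x with hT
  have hTc : ∀ x : V, ((T x : V) : H) = TH κ f (x : H) := fun x => rfl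
  have hsym : T.IsSymmetric := by
    intro x y
    rw [Submodule.coe_inner, Submodule.coe_inner, hTc, hTc, TH_inner, TH_inner']
  have hev := hsym.hasEigenvalue_iSup_of_finiteDimensional
  set l : ℝ := ⨆ x : { x : V // x ≠ 0 }, RCLike.re (inner ℂ (T x) ((x : V))) / ‖(x : V)‖ ^ 2 with hl
  obtain ⟨v0, hv0⟩ := hev.exists_hasEigenvector
  have hle : l ≤ Fintype.card (Fin N → A) * M / 2 := by
    have h1 : (v0 : H) ≠ 0 := fun h => hv0.2 (Subtype.ext h)
    refine eig_le hκ f hM0 hM hf h1 ?_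
    have h2 := congrArg Subtype.val hv0.apply_eq_smul
    rw [hTc] at h2
    exact h2
  intro x
  by_cases hx : x = 0
  · rw [hx]; simp
  have hray : RCLike.re (inner ℂ (T x) (x)) / ‖x‖ ^ 2 ≤ l := by
    refine le_ciSup (f := fun x : { x : V // x ≠ 0 } => RCLike.re (inner ℂ (T x) ((x : V))) / ‖(x : V)‖ ^ 2) ?_ ⟨x, hx⟩
    refine ⟨∑ p : (Fin N → A) × Fin N, ‖κ p.1 (f p.2)‖ ^ 2, ?_⟩
    rintro _ ⟨⟨y, hy⟩, rfl⟩
    have hy0 : 0 < ‖y‖ ^ 2 := by
      have := norm_pos_iff.mpr hy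
      positivity
    dsimp only
    rw [div_le_iff₀ hy0]
    have e1 : RCLike.re (inner ℂ (T y) (y)) = ∑ p : (Fin N → A) × Fin N, ‖(inner ℂ (κ p.1 (f p.2)) ((y : H)))‖ ^ 2 := by
      rw [← TH_self, Submodule.coe_inner, hTc]; rfl
    rw [e1, sum_mul]
    refine sum_le_sum fun p _ => ?_
    rw [← mul_pow]
    exact pow_le_pow_left₀ (norm_nonneg _) (norm_inner_le_norm _ _) 2
  have hx0 : 0 < ‖x‖ ^ 2 := by
    have := norm_pos_iff.mpr hx
    positivity
  rw [div_le_iff₀ hx0] at hray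
  have e1 : RCLike.re (inner ℂ (T x) (x)) = ∑ p : (Fin N → A) × Fin N, ‖(inner ℂ (κ p.1 (f p.2)) ((x : H)))‖ ^ 2 := by
    rw [← TH_self, Submodule.coe_inner, hTc]; rfl
  rw [e1] at hray
  exact hray.trans (mul_le_mul_of_nonneg_right hle hx0.le)

noncomputable instance instFC : Fintype (commutator A) := Fintype.ofFinite _

/-- averages -/
lemma avg_sq {ι : Type*} [Fintype ι] [Nonempty ι] (u : ι → H) :
    ‖((Fintype.card ι : ℂ)⁻¹) • ∑ c, u c‖ ^ 2 ≤ (Fintype.card ι : ℝ)⁻¹ * ∑ c, ‖u c‖ ^ 2 := by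
  have hc : (0:ℝ) < Fintype.card ι := by exact_mod_cast Fintype.card_pos
  have h1 : ‖∑ c, u c‖ ^ 2 ≤ Fintype.card ι * ∑ c, ‖u c‖ ^ 2 := by
    calc ‖∑ c, u c‖ ^ 2 ≤ (∑ c, ‖u c‖) ^ 2 := pow_le_pow_left₀ (norm_nonneg _) (norm_sum_le _ _) 2
      _ ≤ (Finset.univ : Finset ι).card * ∑ c, ‖u c‖ ^ 2 := sq_sum_le_card_mul_sum_sq
      _ = _ := by rw [card_univ]
  rw [norm_smul, mul_pow, norm_inv]
  have h2 : ‖(Fintype.card ι : ℂ)‖ = Fintype.card ι := by simp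
  rw [h2]
  calc ((Fintype.card ι : ℝ)⁻¹) ^ 2 * ‖∑ c, u c‖ ^ 2 ≤
      ((Fintype.card ι : ℝ)⁻¹) ^ 2 * (Fintype.card ι * ∑ c, ‖u c‖ ^ 2) := by gcongr
    _ = _ := by field_simp

/-- the part of `Φ` orthogonal to the vectors fixed by the commutator subgroup of a factor -/
noncomputable def ff (κ : (Fin N → A) →* Module.End ℂ H) (Φ : Fin N → H) (j : Fin N) : H :=
  Φ j - ((Nat.card (commutator A) : ℂ)⁻¹) • ∑ c : commutator A, κ (Pi.mulSingle j (c : A)) (Φ j)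

lemma ff_perp (hκ : ∀ b v w, (inner ℂ (κ b v) (κ b w)) = (inner ℂ (v) (w))) (Φ : Fin N → H) (j : Fin N) (w : H)
    (hw : w ∈ Fx κ j) : (inner ℂ (ff κ Φ j) (w)) = 0 := by
  classical
  have hc : ((Nat.card (commutator A) : ℕ) : ℂ) ≠ 0 := by
    exact_mod_cast Nat.card_pos.ne'
  unfold ff
  rw [inner_sub_left, inner_smul_left, sum_inner]
  have h1 : ∀ c : commutator A, (inner ℂ (κ (Pi.mulSingle j (c : A)) (Φ j)) (w)) = (inner ℂ (Φ j) (w)) := by
    intro c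
    rw [adj' hκ, ← Pi.mulSingle_inv, hw _ (inv_mem c.2)]
  simp_rw [h1]
  rw [sum_const, card_univ, ← Nat.card_eq_fintype_card, nsmul_eq_mul, ← mul_assoc]
  have h2 : (starRingEnd ℂ) ((Nat.card (commutator A) : ℂ)⁻¹) = (Nat.card (commutator A) : ℂ)⁻¹ := by
    simp
  rw [h2, inv_mul_cancel₀ hc, one_mul, sub_self]

/-- distance to a subspace and coordinates -/
lemma proj_low (W : Submodule ℂ H) [FiniteDimensional ℂ W] (x g : H) (hg : g ∈ W) :
    ‖x‖ ^ 2 - ‖x - g‖ ^ 2 ≤ ∑ i, ‖(inner ℂ (x) (((stdOrthonormalBasis ℂ W i : W) : H)))‖ ^ 2 := by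
  have h1 : ∑ i, ‖(inner ℂ (x) (((stdOrthonormalBasis ℂ W i : W) : H)))‖ ^ 2 = ‖W.orthogonalProjectionOnto x‖ ^ 2 := by
    rw [← (stdOrthonormalBasis ℂ W).sum_sq_norm_inner_right (W.orthogonalProjectionOnto x)]
    refine sum_congr rfl fun i _ => ?_
    rw [Submodule.inner_orthogonalProjectionOnto_eq_of_mem_left, norm_inner_symm]
  rw [h1]
  have h2 : ((inner ℂ ((⟨g, hg⟩ : W)) (W.orthogonalProjectionOnto x)) : ℂ) = (inner ℂ (g) (x)) :=
    Submodule.inner_orthogonalProjectionOnto_eq_of_mem_left _ _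
  have h3 : ‖x - g‖ ^ 2 = ‖g‖ ^ 2 - 2 * RCLike.re ((inner ℂ (g) (x)) : ℂ) + ‖x‖ ^ 2 := by
    rw [norm_sub_rev, @norm_sub_sq ℂ]
  have h4 : ‖(⟨g, hg⟩ : W) - W.orthogonalProjectionOnto x‖ ^ 2 =
      ‖(⟨g, hg⟩ : W)‖ ^ 2 - 2 * RCLike.re ((inner ℂ ((⟨g, hg⟩ : W)) (W.orthogonalProjectionOnto x)) : ℂ) +
        ‖W.orthogonalProjectionOnto x‖ ^ 2 := @norm_sub_sq ℂ _ _ _ _ _ _
  have h6 : ‖(⟨g, hg⟩ : W)‖ = ‖g‖ := rfl
  rw [h2, h6] at h4
  have h5 := sq_nonneg ‖(⟨g, hg⟩ : W) - W.orthogonalProjectionOnto x‖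
  linarith

/-- the corrected approximation -/
noncomputable def gc (g : (Fin N → A) × Fin N → H) (p : (Fin N → A) × Fin N) : H :=
  g p - ((Nat.card (commutator A) : ℂ)⁻¹) • ∑ c : commutator A, g (p.1 * Pi.mulSingle p.2 (c : A), p.2)

/-- squared errors -/
noncomputable def er (κ : (Fin N → A) →* Module.End ℂ H) (Φ : Fin N → H) (g : (Fin N → A) × Fin N → H)
    (p : (Fin N → A) × Fin N) : ℝ := ‖κ p.1 (Φ p.2) - g p‖ ^ 2

lemma gc_diff (Φ : Fin N → H) (g : (Fin N → A) × Fin N → H) (p : (Fin N → A) × Fin N) :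
    κ p.1 (ff κ Φ p.2) - gc g p = (κ p.1 (Φ p.2) - g p) - ((Nat.card (commutator A) : ℂ)⁻¹) • ∑ c : commutator A,
        (κ (p.1 * Pi.mulSingle p.2 (c : A)) (Φ p.2) - g (p.1 * Pi.mulSingle p.2 (c : A), p.2)) := by
  have e2 : κ p.1 (ff κ Φ p.2) = κ p.1 (Φ p.2) -
      ((Nat.card (commutator A) : ℂ)⁻¹) • ∑ c : commutator A, κ (p.1 * Pi.mulSingle p.2 (c : A)) (Φ p.2) := by
    unfold ff
    rw [map_sub, map_smul, map_sum]
    congr 2
    exact sum_congr rfl fun c _ => (kmul _ _ _).symm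
  unfold gc
  rw [e2, sum_sub_distrib, smul_sub]
  exact sub_sub_sub_comm _ _ _ _

lemma gc_le (Φ : Fin N → H) (g : (Fin N → A) × Fin N → H) (p : (Fin N → A) × Fin N) :
    er κ (ff κ Φ) (gc g) p ≤ 2 * er κ Φ g p +
      2 * ((Fintype.card (commutator A) : ℝ)⁻¹ * ∑ c : commutator A, er κ Φ g (p.1 * Pi.mulSingle p.2 (c : A), p.2)) := by
  have h0 := gc_diff (κ := κ) Φ g p
  rw [Nat.card_eq_fintype_card] at h0
  unfold er
  rw [h0]
  have h1 := avg_sq (fun c : commutator A => κ (p.1 * Pi.mulSingle p.2 (c : A)) (Φ p.2) - g (p.1 * Pi.mulSingle p.2 (c : A), p.2))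
  have h2 : ∀ x y : H, ‖x - y‖ ^ 2 ≤ 2 * ‖x‖ ^ 2 + 2 * ‖y‖ ^ 2 := by
    intro x y
    have := norm_sub_le x y
    nlinarith [norm_nonneg x, norm_nonneg y, norm_nonneg (x - y), sq_nonneg (‖x‖ - ‖y‖)]
  exact (h2 _ _).trans (by linarith)

lemma sum_er (X : (Fin N → A) × Fin N → ℝ) :
    ∑ p : (Fin N → A) × Fin N, ((Fintype.card (commutator A) : ℝ)⁻¹ *
      ∑ c : commutator A, X (p.1 * Pi.mulSingle p.2 (c : A), p.2)) = ∑ p, X p := by
  rw [← mul_sum, sum_comm]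
  have h1 : ∀ c : commutator A, ∑ p : (Fin N → A) × Fin N, X (p.1 * Pi.mulSingle p.2 (c : A), p.2) = ∑ p, X p := by
    intro c
    rw [Fintype.sum_prod_type_right, Fintype.sum_prod_type_right]
    refine sum_congr rfl fun j _ => ?_
    exact Fintype.sum_equiv (Equiv.mulRight (Pi.mulSingle j (c : A))) _ _ fun b => rfl
  simp_rw [h1]
  rw [sum_const, card_univ, nsmul_eq_mul, ← mul_assoc, inv_mul_cancel₀, one_mul]
  exact_mod_cast Fintype.card_pos.ne'

end Pool.Agent.V11104.GG
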