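import Mathlib

set_option autoImplicit false

/-!
Linear algebra for unitary representations of powers of a finite group: dimensions and energy.
-/

namespace Pool.Agent.V11104.GG

open Finset Module
open scoped commutatorElement

variable {A : Type*} [Group A] {N : ℕ}
variable {H : Type*} [NormedAddCommGroup H] [InnerProductSpace ℂ H]

/-- vectors fixed by the commutator subgroup of the `i`-th factor -/
def Fx (κ : (Fin N → A) →* Module.End ℂ H) (i : Fin N) : Submodule ℂ H where
  carrier := {w | ∀ c ∈ commutator A, κ (Pi.mulSingle i c) w = w}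
  add_mem' := by
    intro a b ha hb c hc
    rw [map_add, ha c hc, hb c hc]
  zero_mem' := by intro c _; simp
  smul_mem' := by
    intro r x hx c hc
    rw [map_smul, hx c hc]

variable {κ : (Fin N → A) →* Module.End ℂ H}

lemma kmul (b c : Fin N → A) (v : H) : κ (b * c) v = κ b (κ c v) := by
  rw [map_mul]; rfl

lemma kone (v : H) : κ 1 v = v := by
  rw [map_one]; rfl

lemma mem_Fx {i : Fin N} {w : H} : w ∈ Fx κ i ↔ ∀ c ∈ commutator A, κ (Pi.mulSingle i c) w = w := Iff.rfl

lemma adj (hκ : ∀ b v w, (inner ℂ (κ b v) (κ b w)) = (inner ℂ (v) (w))) (b : Fin N → A) (v w : H) :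
    (inner ℂ (v) (κ b w)) = (inner ℂ (κ b⁻¹ v) (w)) := by
  rw [← hκ b (κ b⁻¹ v) w, ← kmul, mul_inv_cancel, kone]

lemma adj' (hκ : ∀ b v w, (inner ℂ (κ b v) (κ b w)) = (inner ℂ (v) (w))) (b : Fin N → A) (v w : H) :
    (inner ℂ (κ b v) (w)) = (inner ℂ (v) (κ b⁻¹ w)) := by
  rw [← hκ b v (κ b⁻¹ w), ← kmul, mul_inv_cancel, kone]

lemma Fx_inv {i : Fin N} {w : H} (hw : w ∈ Fx κ i) (b : Fin N → A) : κ b w ∈ Fx κ i := by
  intro c hc
  have e : (Pi.mulSingle i c : Fin N → A) * b = b * Pi.mulSingle i ((b i)⁻¹ * c * b i) := by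
    ext k
    rcases eq_or_ne k i with rfl | hk
    · simp [mul_assoc]
    · simp [Pi.mulSingle_eq_of_ne hk]
  have hc' : (b i)⁻¹ * c * b i ∈ commutator A := by
    have := (inferInstance : (commutator A).Normal).conj_mem c hc (b i)⁻¹
    simpa using this
  rw [← kmul, e, kmul, hw _ hc']

lemma ms_mul (i : Fin N) (a b : A) :
    (Pi.mulSingle i (a * b) : Fin N → A) = Pi.mulSingle i a * Pi.mulSingle i b := by
  ext k
  rcases eq_or_ne k i with rfl | hk
  · simp
  · simp [Pi.mulSingle_eq_of_ne hk]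

lemma ms_comm {i i' : Fin N} (h : i ≠ i') (a c : A) :
    (Pi.mulSingle i a * Pi.mulSingle i' c : Fin N → A) = Pi.mulSingle i' c * Pi.mulSingle i a := by
  ext k
  rcases eq_or_ne k i with rfl | hk
  · simp [Pi.mulSingle_eq_of_ne h]
  · simp [Pi.mulSingle_eq_of_ne hk]

/-- a representation without vectors fixed by the commutator subgroups of the factors in `S`
has dimension at least `2 ^ |S|` -/
theorem dimlow (hκ : ∀ b v w, (inner ℂ (κ b v) (κ b w)) = (inner ℂ (v) (w))) (S : Finset (Fin N)) :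
    ∀ W : Submodule ℂ H, FiniteDimensional ℂ W → W ≠ ⊥ →
    (∀ i ∈ S, ∀ a : A, ∀ w ∈ W, κ (Pi.mulSingle i a) w ∈ W) →
    (∀ i ∈ S, W ⊓ Fx κ i = ⊥) → 2 ^ S.card ≤ finrank ℂ W := by
  classical
  induction S using Finset.induction_on with
  | empty =>
    intro W hf hW _ _
    have : Nontrivial W := Submodule.nontrivial_iff_ne_bot.mpr hW
    rw [card_empty, pow_zero]
    exact Module.finrank_pos (R := ℂ) (M := W)
  | insert i S hi ih =>
    intro W hf hW hinv hfix
    have hns : ∃ a : A, ∀ μ : ℂ, ∃ w ∈ W, κ (Pi.mulSingle i a) w ≠ μ • w := by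
      by_contra hcon
      push Not at hcon
      choose μ hμ using hcon
      have hii := hinv i (mem_insert_self i S)
      have hms : ∀ a b : A, (Pi.mulSingle i (a * b) : Fin N → A) = Pi.mulSingle i a * Pi.mulSingle i b :=
        ms_mul i
      have hcomm : ∀ a b : A, ∀ u ∈ W, κ (Pi.mulSingle i (a * b)) u = κ (Pi.mulSingle i (b * a)) u := by
        intro a b u hu
        rw [hms, hms, kmul, kmul, hμ b u hu, hμ a u hu, map_smul, map_smul, hμ a u hu, hμ b u hu,
          smul_smul, smul_smul, mul_comm]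
      let Sg : Subgroup A :=
        { carrier := {c | ∀ w ∈ W, κ (Pi.mulSingle i c) w = w}
          mul_mem' := by
            intro a b ha hb w hw
            rw [hms, kmul, hb w hw, ha w hw]
          one_mem' := by
            intro w _
            rw [Pi.mulSingle_one, kone]
          inv_mem' := by
            intro a ha w hw
            have h1 := ha w hw
            calc κ (Pi.mulSingle i a⁻¹) w = κ (Pi.mulSingle i a⁻¹) (κ (Pi.mulSingle i a) w) := by rw [h1]
              _ = w := by rw [← kmul, ← hms, inv_mul_cancel, Pi.mulSingle_one, kone] }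
      have hle : commutator A ≤ Sg := by
        rw [commutator_def, Subgroup.commutator_le]
        intro a _ b _ w hw
        have e : ⁅a, b⁆ = (a * b) * (b * a)⁻¹ := by rw [commutatorElement_def, mul_inv_rev, mul_assoc]
        rw [e, hms, kmul, hcomm a b _ (hii _ w hw), ← kmul, ← hms, mul_inv_cancel, Pi.mulSingle_one, kone]
      have hfx : W ≤ Fx κ i := fun w hw c hc => hle hc w hw
      have h1 : W ⊓ Fx κ i = W := inf_eq_left.mpr hfx
      exact hW (h1 ▸ hfix i (mem_insert_self i S))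
    obtain ⟨a, ha⟩ := hns
    have hN : Nontrivial W := Submodule.nontrivial_iff_ne_bot.mpr hW
    obtain ⟨μ, hμ⟩ := Module.End.exists_eigenvalue
      ((κ (Pi.mulSingle i a)).restrict (hinv i (mem_insert_self i S) a) : Module.End ℂ W)
    obtain ⟨v, hv⟩ := hμ.exists_hasEigenvector
    have hv0 : v ≠ 0 := hv.2
    have hv1 : κ (Pi.mulSingle i a) (v : H) = μ • (v : H) := by
      have := congrArg Subtype.val hv.apply_eq_smul
      simpa using this
    set W1 : Submodule ℂ H := W ⊓ Module.End.eigenspace (κ (Pi.mulSingle i a)) μ with hW1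
    have hvW1 : (v : H) ∈ W1 := ⟨v.2, Module.End.mem_eigenspace_iff.mpr hv1⟩
    have hW1b : W1 ≠ ⊥ := by
      intro h
      rw [h, Submodule.mem_bot] at hvW1
      exact hv0 (Subtype.ext hvW1)
    have hW1le : W1 ≤ W := inf_le_left
    have hrank := Submodule.finrank_add_inf_finrank_orthogonal hW1le
    have hcom : ∀ i' ∈ S, ∀ c : A, ∀ w, κ (Pi.mulSingle i a) (κ (Pi.mulSingle i' c) w) =
        κ (Pi.mulSingle i' c) (κ (Pi.mulSingle i a) w) := by
      intro i' hi' c w
      have hne : i ≠ i' := fun h => hi (h ▸ hi')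
      rw [← kmul, ← kmul, ms_comm hne a c]
    have hinv1 : ∀ i' ∈ S, ∀ c : A, ∀ w ∈ W1, κ (Pi.mulSingle i' c) w ∈ W1 := by
      intro i' hi' c w hw
      refine ⟨hinv i' (mem_insert_of_mem hi') c w hw.1, Module.End.mem_eigenspace_iff.mpr ?_⟩
      rw [hcom i' hi' c w, Module.End.mem_eigenspace_iff.mp hw.2, map_smul]
    have hinv2 : ∀ i' ∈ S, ∀ c : A, ∀ w ∈ (W1ᗮ ⊓ W : Submodule ℂ H), κ (Pi.mulSingle i' c) w ∈ (W1ᗮ ⊓ W : Submodule ℂ H) := by
      intro i' hi' c w hw
      refine ⟨(Submodule.mem_orthogonal _ _).mpr ?_, hinv i' (mem_insert_of_mem hi') c w hw.2⟩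
      intro u hu
      rw [adj hκ, ← Pi.mulSingle_inv]
      exact (Submodule.mem_orthogonal _ _).mp hw.1 _ (hinv1 i' hi' c⁻¹ u hu)
    have hW2b : (W1ᗮ ⊓ W : Submodule ℂ H) ≠ ⊥ := by
      intro h
      rw [h, finrank_bot, add_zero] at hrank
      have h1 : W1 = W := Submodule.eq_of_le_of_finrank_eq hW1le hrank
      obtain ⟨w, hw, hw2⟩ := ha μ
      rw [← h1] at hw
      exact hw2 (Module.End.mem_eigenspace_iff.mp hw.2)
    have hsub : ∀ W' : Submodule ℂ H, W' ≤ W → ∀ i' ∈ S, W' ⊓ Fx κ i' = ⊥ := by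
      intro W' hW' i' hi'
      rw [eq_bot_iff, ← hfix i' (mem_insert_of_mem hi')]
      exact inf_le_inf_right _ hW'
    have r1 := ih W1 (Submodule.finiteDimensional_of_le hW1le) hW1b hinv1 (hsub W1 hW1le)
    have r2 := ih (W1ᗮ ⊓ W) (Submodule.finiteDimensional_of_le inf_le_right) hW2b hinv2 (hsub _ inf_le_right)
    rw [card_insert_of_notMem hi, pow_succ]
    omega

/-- choice of a subspace on which every factor is either trivial or without fixed vectors -/
theorem greedy (S0 : Finset (Fin N)) (Z : Submodule ℂ H) (hZ : Z ≠ ⊥)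
    (hinv : ∀ b, ∀ w ∈ Z, κ b w ∈ Z) :
    ∃ (Z' : Submodule ℂ H) (S : Finset (Fin N)), Z' ≤ Z ∧ Z' ≠ ⊥ ∧ (∀ b, ∀ w ∈ Z', κ b w ∈ Z') ∧
      (∀ i ∈ S, Z' ⊓ Fx κ i = ⊥) ∧ ∀ i ∈ S0, i ∉ S → Z' ≤ Fx κ i := by
  classical
  induction S0 using Finset.induction_on with
  | empty => exact ⟨Z, ∅, le_rfl, hZ, hinv, by simp, by simp⟩
  | insert i S0 hi ih =>
    obtain ⟨Z', S, h1, h2, h3, h4, h5⟩ := ih
    by_cases hb : Z' ⊓ Fx κ i = ⊥
    · refine ⟨Z', insert i S, h1, h2, h3, ?_, ?_⟩
      · intro j hj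
        rcases mem_insert.mp hj with rfl | hj
        · exact hb
        · exact h4 j hj
      · intro j hj hjS
        rcases mem_insert.mp hj with rfl | hj
        · exact absurd (mem_insert_self _ _) hjS
        · exact h5 j hj fun h => hjS (mem_insert_of_mem h)
    · refine ⟨Z' ⊓ Fx κ i, S, inf_le_left.trans h1, hb, fun b w hw => ⟨h3 b w hw.1, Fx_inv hw.2 b⟩, ?_, ?_⟩
      · intro j hj
        rw [eq_bot_iff, ← h4 j hj]
        exact inf_le_inf_right _ inf_le_left
      · intro j hj hjS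
        rcases mem_insert.mp hj with rfl | hj
        · exact inf_le_right
        · exact inf_le_left.trans (h5 j hj hjS)

lemma two_mul_le_pow (s : ℕ) : 2 * s ≤ 2 ^ s := by
  induction s with
  | zero => simp
  | succ s ih =>
    rcases s with _ | s
    · simp
    · rw [pow_succ]
      have : 2 ≤ 2 ^ (s + 1) := by
        rw [pow_succ]
        have := Nat.one_le_two_pow (n := s)
        omega
      omega

end Pool.Agent.V11104.GG
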