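import Pool.Agent.V11104.GG.Defs

set_option autoImplicit false
set_option linter.unusedSectionVars false
set_option maxHeartbeats 400000

/-!
Koopman representation, step functions, separation.
-/

namespace Pool.Agent.V11104.GG

open MeasureTheory Filter Topology Finset
open scoped ENNReal

section koopman

variable {G X : Type*} [Group G] [MeasurableSpace X] [MulAction G X] {μ : Measure X} [IsProbabilityMeasure μ]

lemma comp_congr {f f' : X → X} (h : f = f') (hf : MeasurePreserving f μ μ) (hf' : MeasurePreserving f' μ μ)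
    (g : Lp ℂ 2 μ) : Lp.compMeasurePreserving f hf g = Lp.compMeasurePreserving f' hf' g := by
  subst h; rfl

/-- the Koopman representation -/
noncomputable def koop (hmp : ∀ g : G, MeasurePreserving (fun x : X => g • x) μ μ) :
    G →* Module.End ℂ (Lp ℂ 2 μ) where
  toFun g := Lp.compMeasurePreservingₗ ℂ (fun x : X => g⁻¹ • x) (hmp g⁻¹)
  map_one' := by
    ext1 f
    change Lp.compMeasurePreserving (fun x : X => (1:G)⁻¹ • x) (hmp (1:G)⁻¹) f = f
    rw [comp_congr (f' := id) (by ext x; simp) _ (MeasurePreserving.id μ)]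
    exact Lp.compMeasurePreserving_id_apply f
  map_mul' g h := by
    ext1 f
    change Lp.compMeasurePreserving (fun x : X => (g * h)⁻¹ • x) (hmp (g * h)⁻¹) f =
      Lp.compMeasurePreserving (fun x : X => g⁻¹ • x) (hmp g⁻¹) (Lp.compMeasurePreserving (fun x : X => h⁻¹ • x) (hmp h⁻¹) f)
    rw [← Lp.compMeasurePreserving_comp_apply]
    exact comp_congr (by ext x; simp [mul_smul]) _ _ f

lemma koop_inner (hmp : ∀ g : G, MeasurePreserving (fun x : X => g • x) μ μ) (g : G) (v w : Lp ℂ 2 μ) :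
    (inner ℂ (koop hmp g v) (koop hmp g w)) = (inner ℂ (v) (w)) :=
  (Lp.compMeasurePreservingₗᵢ ℂ (fun x : X => g⁻¹ • x) (hmp g⁻¹)).inner_map_map v w

/-- real functions bounded by one -/
def Bd (u : X → ℝ) : Prop := Measurable u ∧ ∀ x, |u x| ≤ 1

lemma Bd.memLp {u : X → ℝ} (h : Bd u) : MemLp (fun x => (u x : ℂ)) 2 μ :=
  MemLp.of_bound (Complex.measurable_ofReal.comp h.1).aestronglyMeasurable 1
    (Eventually.of_forall fun x => by simpa using h.2 x)

/-- its class -/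
noncomputable def tl (μ : Measure X) [IsProbabilityMeasure μ] {u : X → ℝ} (h : Bd u) : Lp ℂ 2 μ := (h.memLp (μ := μ)).toLp _

lemma Bd.comp {u : X → ℝ} (h : Bd u) {f : X → X} (hf : Measurable f) : Bd (fun x => u (f x)) :=
  ⟨h.1.comp hf, fun _ => h.2 _⟩

lemma koop_tl (hmp : ∀ g : G, MeasurePreserving (fun x : X => g • x) μ μ) (g : G) {u : X → ℝ} (h : Bd u) :
    koop hmp g (tl μ h) = tl μ (h.comp (hmp g⁻¹).measurable) := rfl

lemma koop_koop_tl (hmp : ∀ g : G, MeasurePreserving (fun x : X => g • x) μ μ) (g g' k : G) (hk : k = (g * g')⁻¹)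
    {u : X → ℝ} (h : Bd u) :
    koop hmp g (koop hmp g' (tl μ h)) = tl μ (h.comp (hmp k).measurable) := by
  have e : koop hmp g (koop hmp g' (tl μ h)) = koop hmp (g * g') (tl μ h) := by
    rw [map_mul]; rfl
  rw [e, koop_tl]
  subst hk
  rfl

lemma tl_ae {u : X → ℝ} (h : Bd u) : (tl μ h : X → ℂ) =ᵐ[μ] fun x => (u x : ℂ) := MemLp.coeFn_toLp _

lemma norm_sq_int (v : Lp ℂ 2 μ) : ‖v‖ ^ 2 = ∫ x, ‖(v : X → ℂ) x‖ ^ 2 ∂μ := by
  have h1 : ((inner ℂ (v) (v)) : ℂ) = ∫ x, (inner ℂ ((v : X → ℂ) x) ((v : X → ℂ) x)) ∂μ := L2.inner_def v v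
  have h2 : ((‖v‖ ^ 2 : ℝ) : ℂ) = ((∫ x, ‖(v : X → ℂ) x‖ ^ 2 ∂μ : ℝ) : ℂ) := by
    rw [← integral_complex_ofReal]
    have h3 := inner_self_eq_norm_sq_to_K (𝕜 := ℂ) v
    rw [h1] at h3
    have h4 : ∫ x, ((inner ℂ ((v : X → ℂ) x) ((v : X → ℂ) x)) : ℂ) ∂μ = ∫ x, ((‖(v : X → ℂ) x‖ ^ 2 : ℝ) : ℂ) ∂μ := by
      refine integral_congr_ae (Eventually.of_forall fun x => ?_)
      have := inner_self_eq_norm_sq_to_K (𝕜 := ℂ) ((v : X → ℂ) x)
      simp only
      rw [this]
      push_cast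
      rfl
    rw [← h4, h3]
    push_cast
    rfl
  exact_mod_cast h2

lemma st_memLp {k : ℕ} {s : X → Fin (k + 1)} (hs : Measurable s) (c : Fin (k + 1) → ℂ) :
    MemLp (fun x => c (s x)) 2 μ :=
  MemLp.of_bound (f := fun x => c (s x)) ((Measurable.of_discrete (f := c)).comp hs).aestronglyMeasurable
    (∑ i, ‖c i‖) (Eventually.of_forall fun x => single_le_sum (f := fun i => ‖c i‖) (fun _ _ => norm_nonneg _) (mem_univ (s x)))

/-- functions constant on the levels of `s` -/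
noncomputable def st (μ : Measure X) [IsProbabilityMeasure μ] {k : ℕ} {s : X → Fin (k + 1)} (hs : Measurable s) :
    (Fin (k + 1) → ℂ) →ₗ[ℂ] Lp ℂ 2 μ where
  toFun c := (st_memLp hs c).toLp _
  map_add' c d := by
    rw [← MemLp.toLp_add]
    rfl
  map_smul' a c := by
    rw [RingHom.id_apply, ← MemLp.toLp_const_smul]
    rfl

lemma st_ae {k : ℕ} {s : X → Fin (k + 1)} (hs : Measurable s) (c : Fin (k + 1) → ℂ) :
    (st μ hs c : X → ℂ) =ᵐ[μ] fun x => c (s x) := MemLp.coeFn_toLp (st_memLp hs c)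

/-- a measurable choice of pieces -/
lemma choice {k : ℕ} {P : Fin (k + 1) → Set X} (hP : ∀ i, MeasurableSet (P i)) (hU : (⋃ i, P i) = Set.univ) :
    ∃ s : X → Fin (k + 1), Measurable s ∧ ∀ x, x ∈ P (s x) := by
  classical
  have hex : ∀ x, ∃ n : ℕ, ∃ h : n < k + 1, x ∈ P ⟨n, h⟩ := by
    intro x
    have : x ∈ ⋃ i, P i := hU ▸ Set.mem_univ x
    obtain ⟨i, hi⟩ := Set.mem_iUnion.mp this
    exact ⟨i, i.2, hi⟩
  have hm : Measurable fun x => Nat.find (hex x) := by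
    refine measurable_find hex fun n => ?_
    by_cases hn : n < k + 1
    · have : {x | ∃ h : n < k + 1, x ∈ P ⟨n, h⟩} = P ⟨n, hn⟩ := by
        ext x
        exact ⟨fun ⟨_, h⟩ => h, fun h => ⟨hn, h⟩⟩
      rw [this]
      exact hP _
    · have : {x | ∃ h : n < k + 1, x ∈ P ⟨n, h⟩} = ∅ := by
        ext x
        exact ⟨fun ⟨h, _⟩ => absurd h hn, fun h => absurd h (Set.notMem_empty x)⟩
      rw [this]
      exact MeasurableSet.empty
  refine ⟨fun x => ⟨Nat.find (hex x), (Nat.find_spec (hex x)).1⟩, ?_, fun x => (Nat.find_spec (hex x)).2⟩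
  refine measurable_to_countable' fun i => ?_
  have : (fun x => (⟨Nat.find (hex x), (Nat.find_spec (hex x)).1⟩ : Fin (k + 1))) ⁻¹' {i} =
      (fun x => Nat.find (hex x)) ⁻¹' {(i : ℕ)} := by
    ext x
    simp only [Set.mem_preimage, Set.mem_singleton_iff]
    exact Fin.ext_iff
  rw [this]
  exact hm (measurableSet_singleton _)

end koopman

section folnersum

variable {G X : Type*} [Group G] [MulAction G X]

/-- shifting the truncated sum of a semimetric over a finite set -/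
lemma trunc_sum (F : Finset G) (ρ : X → X → ℝ) (h0 : ∀ x y, 0 ≤ ρ x y) (g₀ : G) (x y : X) :
    ∑ h ∈ F, min (ρ (g₀ • h • x) (g₀ • h • y)) 1 ≤
      ∑ h ∈ F, ρ (h • x) (h • y) + (({h | h ∈ F ∧ g₀ * h ∉ F} : Set G).ncard : ℝ) := by
  classical
  have e1 : (({h | h ∈ F ∧ g₀ * h ∉ F} : Set G).ncard : ℝ) = ∑ h ∈ F, if g₀ * h ∈ F then (0:ℝ) else 1 := by
    have e2 : ({h | h ∈ F ∧ g₀ * h ∉ F} : Set G) = (F.filter (fun h => g₀ * h ∉ F) : Finset G) := by
      ext h; simp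
    rw [e2, Set.ncard_coe_finset, card_filter]
    push_cast
    refine sum_congr rfl fun h _ => ?_
    split_ifs <;> simp_all
  have e3 : ∑ h ∈ F, (if g₀ * h ∈ F then ρ ((g₀ * h) • x) ((g₀ * h) • y) else 0) ≤ ∑ h ∈ F, ρ (h • x) (h • y) := by
    rw [← sum_filter]
    have e4 : ∑ h ∈ F.filter (fun h => g₀ * h ∈ F), ρ ((g₀ * h) • x) ((g₀ * h) • y) =
        ∑ h ∈ (F.filter (fun h => g₀ * h ∈ F)).image (fun h => g₀ * h), ρ (h • x) (h • y) := by
      rw [sum_image]
      intro a _ b _ hab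
      exact mul_left_cancel hab
    rw [e4]
    refine sum_le_sum_of_subset_of_nonneg ?_ fun _ _ _ => h0 _ _
    intro h hh
    rw [mem_image] at hh
    obtain ⟨h', h1, rfl⟩ := hh
    exact (mem_filter.mp h1).2
  calc ∑ h ∈ F, min (ρ (g₀ • h • x) (g₀ • h • y)) 1 ≤
      ∑ h ∈ F, ((if g₀ * h ∈ F then ρ ((g₀ * h) • x) ((g₀ * h) • y) else 0) + if g₀ * h ∈ F then (0:ℝ) else 1) := by
        refine sum_le_sum fun h _ => ?_
        split_ifs
        · rw [add_zero, mul_smul, mul_smul]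
          exact min_le_left _ _
        · rw [zero_add]
          exact min_le_right _ _
    _ ≤ _ := by
        rw [sum_add_distrib, e1]
        exact add_le_add_left e3 _

end folnersum

section separation

variable {G X : Type*} [Group G] [Countable G] [MeasurableSpace X] [MulAction G X] {μ : Measure X}
  [IsProbabilityMeasure μ]

/-- almost every ball has positive measure -/
lemma balls {ρ : X → X → ℝ} (hρ : IsSemimetric ρ) (had : ∀ ε > 0, Hent μ ρ ε < ⊤) {ε : ℝ} (hε : 0 < ε) :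
    μ {x | μ {y | ρ x y < ε} = 0} = 0 := by
  by_contra hne
  have hpos : 0 < μ {x | μ {y | ρ x y < ε} = 0} := pos_iff_ne_zero.mpr hne
  obtain ⟨δ, hδ0, hδ1, hδ⟩ : ∃ δ : ℝ, 0 < δ ∧ δ ≤ ε ∧ ENNReal.ofReal δ ≤ μ {x | μ {y | ρ x y < ε} = 0} := by
    set m := (μ {x | μ {y | ρ x y < ε} = 0}).toReal with hm
    have hmt : μ {x | μ {y | ρ x y < ε} = 0} ≠ ⊤ := measure_ne_top _ _
    have hm0 : 0 < m := ENNReal.toReal_pos hne hmt
    refine ⟨min ε m, lt_min hε hm0, min_le_left _ _, ?_⟩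
    rw [← ENNReal.ofReal_toReal hmt]
    exact ENNReal.ofReal_le_ofReal (min_le_right _ _)
  have hH := had δ hδ0
  unfold Hent at hH
  rw [iInf_lt_iff] at hH
  obtain ⟨k, hk⟩ := hH
  rw [iInf_lt_iff] at hk
  obtain ⟨⟨_, P, hPm, hU, hP0, hD⟩, -⟩ := hk
  have hsub : {x | μ {y | ρ x y < ε} = 0} ⊆ P 0 ∪ ⋃ i : Fin (k + 1), (if μ (P i) = 0 then P i else ∅) := by
    intro x hx
    have hxU : x ∈ ⋃ i, P i := hU ▸ Set.mem_univ x
    obtain ⟨i, hi⟩ := Set.mem_iUnion.mp hxU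
    by_cases h0 : i = 0
    · left; rw [← h0]; exact hi
    right
    refine Set.mem_iUnion.mpr ⟨i, ?_⟩
    obtain ⟨D, hD1, hD2⟩ := hD i h0
    have hx' : μ {y | ρ x y < ε} = 0 := hx
    have hs2 : P i ⊆ {y | ρ x y < ε} := fun y hy => lt_of_le_of_lt (hD2 x hi y hy) (hD1.trans_le hδ1)
    have h1 : μ (P i) = 0 := measure_mono_null hs2 hx'
    rw [if_pos h1]
    exact hi
  have hnull : μ (⋃ i : Fin (k + 1), (if μ (P i) = 0 then P i else ∅)) = 0 := by
    refine measure_iUnion_null fun i => ?_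
    split_ifs with h
    · exact h
    · exact measure_empty
  have := (measure_mono (μ := μ) hsub).trans (measure_union_le (μ := μ) _ _)
  rw [hnull, add_zero] at this
  exact absurd (hδ.trans this) (not_le.mpr hP0)

/-- some truncated distance function is moved by `c` -/
theorem moved (hmp : ∀ g : G, MeasurePreserving (fun x : X => g • x) μ μ)
    {ρ : X → X → ℝ} (hρ : IsSemimetric ρ) (had : ∀ ε > 0, Hent μ ρ ε < ⊤) (hgen : IsGenerating G μ ρ)
    {c : G} (hc : μ {x | c • x = x} = 0) :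
    ∃ (g₀ : G) (y : X), ¬ ∀ᵐ x ∂μ, min (ρ (g₀ • c • x) y) 1 = min (ρ (g₀ • x) y) 1 := by
  by_contra hcon
  push Not at hcon
  have h1 : ∀ g₀ : G, ∀ᵐ x ∂μ, ∀ᵐ y ∂μ, min (ρ (g₀ • c • x) y) 1 = min (ρ (g₀ • x) y) 1 := by
    intro g₀
    have hmeas : MeasurableSet {p : X × X | min (ρ (g₀ • c • p.1) p.2) 1 = min (ρ (g₀ • p.1) p.2) 1} := by
      refine measurableSet_eq_fun ?_ ?_
      · refine Measurable.min ?_ measurable_const
        exact hρ.meas.comp (((hmp g₀).measurable.comp ((hmp c).measurable.comp measurable_fst)).prodMk measurable_snd)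
      · refine Measurable.min ?_ measurable_const
        exact hρ.meas.comp (((hmp g₀).measurable.comp measurable_fst).prodMk measurable_snd)
    rw [Measure.ae_ae_comm hmeas]
    exact Eventually.of_forall fun y => hcon g₀ y
  have h2 : ∀ᵐ x ∂μ, ∀ g₀ : G, ∀ᵐ y ∂μ, min (ρ (g₀ • c • x) y) 1 = min (ρ (g₀ • x) y) 1 := ae_all_iff.mpr h1
  have h3 : ∀ᵐ x ∂μ, ∀ n : ℕ, μ {y | ρ x y < 1 / ((n:ℝ) + 2)} ≠ 0 := by
    rw [ae_all_iff]
    intro n
    have := balls hρ had (ε := 1 / ((n:ℝ) + 2)) (by positivity)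
    rw [ae_iff]
    simpa using this
  have h4 : ∀ᵐ x ∂μ, ∀ g₀ : G, ∀ n : ℕ, μ {y | ρ (g₀ • c • x) y < 1 / ((n:ℝ) + 2)} ≠ 0 := by
    rw [ae_all_iff]
    intro g₀
    exact ((hmp g₀).comp (hmp c)).quasiMeasurePreserving.ae h3
  obtain ⟨X', hX', hsep⟩ := hgen
  have h5 : ∀ᵐ x ∂μ, x ∈ X' := by rw [ae_iff]; exact hX'
  have h6 : ∀ᵐ x ∂μ, c • x ∈ X' := (hmp c).quasiMeasurePreserving.ae h5
  have h7 : ∀ᵐ x ∂μ, c • x ≠ x := by
    rw [ae_iff]
    simpa using hc
  have hne : ∀ᵐ x ∂μ, False := by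
    filter_upwards [h2, h4, h5, h6, h7] with x a2 a4 a5 a6 a7
    obtain ⟨g, hg⟩ := hsep _ a6 _ a5 a7
    obtain ⟨n, hn⟩ := exists_nat_gt (2 / ρ (g • c • x) (g • x))
    have hn2 : (2:ℝ) / ((n:ℝ) + 2) < ρ (g • c • x) (g • x) := by
      rw [div_lt_iff₀ hg] at hn
      rw [div_lt_iff₀ (by positivity)]
      nlinarith
    have hpos := a4 g n
    have hae := a2 g
    obtain ⟨y, hy1, hy2⟩ : ∃ y, ρ (g • c • x) y < 1 / ((n:ℝ) + 2) ∧
        min (ρ (g • c • x) y) 1 = min (ρ (g • x) y) 1 := by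
      by_contra hno
      push Not at hno
      apply hpos
      rw [ae_iff] at hae
      refine measure_mono_null (fun y hy => ?_) hae
      exact hno y hy
    have hlt1 : (1:ℝ) / ((n:ℝ) + 2) < 1 := by
      rw [div_lt_one (by positivity)]
      have : (0:ℝ) ≤ n := Nat.cast_nonneg n
      linarith
    have e1 : min (ρ (g • c • x) y) 1 = ρ (g • c • x) y := min_eq_left (by linarith)
    have e2 : ρ (g • x) y < 1 / ((n:ℝ) + 2) := by
      rw [e1] at hy2
      by_contra hge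
      push Not at hge
      have : 1 / ((n:ℝ) + 2) ≤ min (ρ (g • x) y) 1 := le_min hge hlt1.le
      linarith
    have e3 := hρ.tri (g • c • x) y (g • x)
    have e4 := hρ.symm y (g • x)
    have e5 : (2:ℝ) / ((n:ℝ) + 2) = 1 / ((n:ℝ) + 2) + 1 / ((n:ℝ) + 2) := by ring
    linarith
  have : μ Set.univ = 0 := by
    have h := hne
    rw [ae_iff] at h
    simp at h
  rw [measure_univ] at this
  exact one_ne_zero this

end separation

end Pool.Agent.V11104.GG
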